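import Mathlib
import Pool.Agent.H56.RDSMain

/-!
# Relative difference sets with `n = p ^ 3`: statements of the modules
-/

set_option autoImplicit false

open Finset

namespace Pool.Agent.H45.R3

open Pool.Agent.H56.RDS

/-! ## Sums over `ZMod p` -/

section defs
variable {p : ℕ} [Fact p.Prime]

/-- the standard additive character -/
noncomputable def e (a : ZMod p) : ℂ := ZMod.stdAddChar a

/-- Walsh coefficient of a function on the plane -/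
noncomputable def W (f : ZMod p → ZMod p → ZMod p) (t c : ZMod p) : ℂ := ∑ y, ∑ x, e (f y x + t * y + c * x)

/-- allowed values of the Walsh coefficients -/
def Good (f : ZMod p → ZMod p → ZMod p) (t c : ZMod p) : Prop := W f t c = 0 ∨ ‖W f t c‖ ^ 2 = (p : ℝ) ^ 3

end defs

/-! ## Number theory -/

/-- VAN: the only relation of the `p`-th roots of unity -/
def VAN : Prop := ∀ (p : ℕ) [Fact p.Prime] (k : ZMod p → ℤ), ∑ v, (k v : ℂ) * e v = 0 → ∀ v w, k v = k w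

/-- URA: elements of the same absolute value differ by a root of unity -/
def URA : Prop := ∀ (p : ℕ) [Fact p.Prime], p ≠ 2 → ∀ (k k' : ZMod p → ℤ) (B : ℕ),
  ‖∑ v, (k v : ℂ) * e v‖ ^ 2 = (p : ℝ) ^ B → ‖∑ v, (k' v : ℂ) * e v‖ ^ 2 = (p : ℝ) ^ B →
  ∃ (ε : ℤ) (r : ZMod p), (ε = 1 ∨ ε = -1) ∧ ∑ v, (k v : ℂ) * e v = ε * e r * ∑ v, (k' v : ℂ) * e v

/-- VAL: Walsh coefficients divisible by `π ^ (3 (p - 1) / 2)` give vanishing power sums on the rows -/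
def VAL : Prop := ∀ (p : ℕ) [Fact p.Prime], p ≠ 2 → ∀ (f : ZMod p → ZMod p → ZMod p) (t : ZMod p),
  (∀ c, Good f t c) →
  (∀ x, ∀ j, j < (p - 1) / 2 → ∑ y, (f y x + t * y) ^ j = 0) ∧
  (∀ x x', ∑ y, (f y x + t * y) ^ ((p - 1) / 2) = ∑ y, (f y x' + t * y) ^ ((p - 1) / 2))

/-! ## Line lemma -/

/-- LSUP: the support of the Walsh transform of a plateaued function on the plane -/
def LSUP : Prop := ∀ (p : ℕ) [Fact p.Prime], p ≠ 2 → ∀ g : ZMod p → ZMod p → ZMod p, (∀ t c, Good g t c) →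
  ∃ (T : Finset (ZMod p × ZMod p)) (ε : ZMod p × ZMod p → ℤ) (j : ZMod p × ZMod p → ZMod p),
    T.card = p ∧ (∀ m, m ∈ T ↔ W g m.1 m.2 ≠ 0) ∧ (∀ m ∈ T, ε m = 1 ∨ ε m = -1) ∧
    (∀ y x : ZMod p, ‖∑ m ∈ T, (ε m : ℂ) * e (j m - m.1 * y - m.2 * x)‖ ^ 2 = (p : ℝ))

/-- LCOM: the support is a line -/
def LCOM : Prop := ∀ (p : ℕ) [Fact p.Prime], p ≠ 2 →
  ∀ (T : Finset (ZMod p × ZMod p)) (ε : ZMod p × ZMod p → ℤ) (j : ZMod p × ZMod p → ZMod p),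
  T.card = p → (∀ m ∈ T, ε m = 1 ∨ ε m = -1) →
  (∀ y x : ZMod p, ‖∑ m ∈ T, (ε m : ℂ) * e (j m - m.1 * y - m.2 * x)‖ ^ 2 = (p : ℝ)) →
  ∃ d : ZMod p × ZMod p, d ≠ 0 ∧ ∀ m ∈ T, m + d ∈ T

/-- LDIR: a function whose Walsh transform lives on a line is affine in a direction -/
def LDIR : Prop := ∀ (p : ℕ) [Fact p.Prime] (g : ZMod p → ZMod p → ZMod p) (T : Finset (ZMod p × ZMod p))
  (d : ZMod p × ZMod p), T.card = p → d ≠ 0 → (∀ m ∈ T, m + d ∈ T) → (∀ m, W g m.1 m.2 ≠ 0 → m ∈ T) →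
  ∃ u v c : ZMod p, (u ≠ 0 ∨ v ≠ 0) ∧ ∀ y x, g (y + u) (x + v) = g y x + c

/-- LINE -/
def LINE : Prop := ∀ (p : ℕ) [Fact p.Prime], p ≠ 2 → ∀ g : ZMod p → ZMod p → ZMod p, (∀ t c, Good g t c) →
  ∃ u v c : ZMod p, (u ≠ 0 ∨ v ≠ 0) ∧ ∀ y x, g (y + u) (x + v) = g y x + c

/-- SEP: two independent directions are impossible -/
def SEP : Prop := ∀ (p : ℕ) [Fact p.Prime], p ≠ 2 → ∀ (g g' : ZMod p → ZMod p → ZMod p) (u v c u' v' c' : ZMod p),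
  (∀ y x, g (y + u) (x + v) = g y x + c) → (∀ y x, g' (y + u') (x + v') = g' y x + c') →
  (∀ t s, Good (fun y x => -g y x) t s) → (∀ t s, Good (fun y x => 2 * g' y x) t s) →
  (∀ t s, Good (fun y x => 2 * g' y x - g y x) t s) → u * v' = u' * v

/-- C1: first case -/
def C1 : Prop := ∀ (p : ℕ) [Fact p.Prime], p ≠ 2 → ∀ F1 F2 : ZMod p → ZMod p → ZMod p,
  (∀ k b t c, k ≠ 0 → Good (fun y x => k * (F1 y x + b * F2 y x)) t c) →
  ∃ u v c1 c2 : ZMod p, (u ≠ 0 ∨ v ≠ 0) ∧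
    ∀ y x, F1 (y + u) (x + v) = F1 y x + c1 ∧ F2 (y + u) (x + v) = F2 y x + c2

/-! ## Second case -/

/-- MOM: moments -/
def MOM : Prop := ∀ (p : ℕ) [Fact p.Prime], p ≠ 2 → ∀ f : ZMod p → ZMod p → ZMod p,
  (∀ t, t ≠ 0 → (∀ x, ∀ j, j < (p - 1) / 2 → ∑ y, (f y x + t * y) ^ j = 0) ∧
    (∀ x x', ∑ y, (f y x + t * y) ^ ((p - 1) / 2) = ∑ y, (f y x' + t * y) ^ ((p - 1) / 2))) →
  (∀ x a b, a + b < (p - 1) / 2 → ∑ y, y ^ a * (f y x) ^ b = 0) ∧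
  (∀ x x' a b, a + b = (p - 1) / 2 → ∑ y, y ^ a * (f y x) ^ b = ∑ y, y ^ a * (f y x') ^ b)

/-- DEGB -/
def DEGB : Prop := ∀ (p : ℕ) [Fact p.Prime], p ≠ 2 → ∀ f : ZMod p → ZMod p,
  (∀ a b, a + b ≤ (p - 1) / 2 → ∑ y, y ^ a * (f y) ^ b = 0) → ∃ s c, ∀ y, f y = s * y + c

/-- DEGA -/
def DEGA : Prop := ∀ (p : ℕ) [Fact p.Prime], p ≠ 2 → ∀ f : ZMod p → ZMod p,
  (∀ a b, a + b < (p - 1) / 2 → ∑ y, y ^ a * (f y) ^ b = 0) →
  ∃ P : Polynomial (ZMod p), (∀ y, f y = P.eval y) ∧ (P.natDegree ≤ 2 ∨ P.natDegree = (p + 1) / 2)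

/-- PAIR -/
def PAIR : Prop := ∀ (p : ℕ) [Fact p.Prime], p ≠ 2 → p ≠ 5 → ∀ f g : ZMod p → ZMod p,
  (∀ l l' a b, a + b < (p - 1) / 2 → ∑ y, y ^ a * (l * f y + l' * g y) ^ b = 0) →
  ∃ l l', (l ≠ 0 ∨ l' ≠ 0) ∧ ∃ s c, ∀ y, l * f y + l' * g y = s * y + c

/-- FIV: the case `p = 5` -/
def FIV : Prop := ∀ [Fact (Nat.Prime 5)] (f : ZMod 5 → ZMod 5 → ZMod 5),
  (∀ k t c, k ≠ 0 → t ≠ 0 → Good (fun y x => k * f y x) t c) → ∀ x, ∑ y, y * f y x = 0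

/-- the hypothesis of the second case -/
def Hyp2 {p : ℕ} [Fact p.Prime] (f g : ZMod p → ZMod p → ZMod p) : Prop :=
  (∀ l l' t c, (l ≠ 0 ∨ l' ≠ 0) → t ≠ 0 → Good (fun y x => l * f y x + l' * g y x) t c) ∧
  (∀ s n m : ZMod p, s ≠ 0 →
    ((univ : Finset (ZMod p × ZMod p)).filter fun q => f (q.1 + s) q.2 - f q.1 q.2 = n ∧
      g (q.1 + s) q.2 - g q.1 q.2 = m).card ≤ p)

/-- AFF: a combination is affine on the row `x = 0` -/
def AFF : Prop := ∀ (p : ℕ) [Fact p.Prime], p ≠ 2 → ∀ f g : ZMod p → ZMod p → ZMod p, Hyp2 f g →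
  ∃ l l', (l ≠ 0 ∨ l' ≠ 0) ∧ ∃ s c, ∀ y, l * f y 0 + l' * g y 0 = s * y + c

/-- AFX: a combination is affine on all rows -/
def AFX : Prop := ∀ (p : ℕ) [Fact p.Prime], p ≠ 2 → ∀ f g : ZMod p → ZMod p → ZMod p, Hyp2 f g →
  ∃ l l', (l ≠ 0 ∨ l' ≠ 0) ∧ ∃ τ h : ZMod p → ZMod p, ∀ y x, l * f y x + l' * g y x = τ x * y + h x

/-- SLO: functions which are affine on all rows -/
def SLO : Prop := ∀ (p : ℕ) [Fact p.Prime], p ≠ 2 → ∀ τ h : ZMod p → ZMod p,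
  (∀ t c : ZMod p, t ≠ 0 → Good (fun y x => τ x * y + h x) t c) →
  (∀ x x', τ x = τ x') ∧ (τ 0 ≠ 0 → ∀ c : ZMod p, ‖∑ x : ZMod p, e (h x + c * x)‖ ^ 2 = (p : ℝ))

/-- ONE: a nonzero slope gives exactly one nonzero Walsh coefficient for the other combinations -/
def ONE : Prop := ∀ (p : ℕ) [Fact p.Prime], p ≠ 2 → ∀ f g : ZMod p → ZMod p → ZMod p, Hyp2 f g →
  ∀ (l l' s : ZMod p) (h : ZMod p → ZMod p), (l ≠ 0 ∨ l' ≠ 0) → (∀ y x, l * f y x + l' * g y x = s * y + h x) →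
  ∀ m m' t : ZMod p, l * m' ≠ l' * m → t ≠ 0 →
  ∃ c, ∀ c', W (fun y x => m * f y x + m' * g y x) t c' ≠ 0 ↔ c' = c

/-- FIN: the slope is zero -/
def FIN : Prop := ∀ (p : ℕ) [Fact p.Prime], p ≠ 2 → ∀ f g : ZMod p → ZMod p → ZMod p, Hyp2 f g →
  ∀ (l l' s : ZMod p) (h : ZMod p → ZMod p), (l ≠ 0 ∨ l' ≠ 0) → (∀ y x, l * f y x + l' * g y x = s * y + h x) →
  (∀ c : ZMod p, ‖∑ x : ZMod p, e (h x + c * x)‖ ^ 2 = (p : ℝ)) → s = 0

/-- C2: second case -/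
def C2 : Prop := ∀ (p : ℕ) [Fact p.Prime], p ≠ 2 → ∀ f g : ZMod p → ZMod p → ZMod p, Hyp2 f g →
  ∃ l l', (l ≠ 0 ∨ l' ≠ 0) ∧ ∀ y y' x, l * f y x + l' * g y x = l * f y' x + l' * g y' x

/-! ## Groups -/

/-- the hypotheses of the theorem on groups of order `p ^ 5` -/
structure Rds5 (p : ℕ) [Fact p.Prime] (G : Type) [AddCommGroup G] [Fintype G] [DecidableEq G]
    (N : AddSubgroup G) (z : G) (D : Finset G) : Prop where
  p2 : p ≠ 2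
  cardG : Fintype.card G = p ^ 5
  cardN : Nat.card N = p ^ 2
  expN : ∀ x ∈ N, p • x = 0
  z0 : z ≠ 0
  pz : p • z = 0
  mz : ∀ g : G, ∃ k : ℕ, p • g = k • z
  gz : ∃ g : G, p • g = z
  cardD : D.card = p ^ 3
  rep1 : ∀ g : G, g ∉ N → rep D g = p
  rep0 : ∀ g : G, g ∈ N → g ≠ 0 → rep D g = 0

/-- NRM: absolute values of the character sums -/
def NRM : Prop := ∀ (p : ℕ) [Fact p.Prime] (G : Type) [AddCommGroup G] [Fintype G] [DecidableEq G]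
  (N : AddSubgroup G) (z : G) (D : Finset G), Rds5 p G N z D → ∀ χ : AddChar G ℂ, (∃ x ∈ N, χ x ≠ 1) →
  ‖cs χ D‖ ^ 2 = (p : ℝ) ^ 3

/-- CARR: Galois argument -/
def CARR : Prop := ∀ (p : ℕ) [Fact p.Prime] (G : Type) [AddCommGroup G] [Fintype G] [DecidableEq G]
  (N : AddSubgroup G) (z : G) (D : Finset G), Rds5 p G N z D → ∀ χ : AddChar G ℂ, (∃ x ∈ N, χ x ≠ 1) → χ z ≠ 1 →
  ∀ a : G, cs χ (part D p a) = 0 ∨ ‖cs χ (part D p a)‖ ^ 2 = (p : ℝ) ^ 3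

/-- SIZ: the sizes of the parts -/
def SIZ : Prop := ∀ (p : ℕ) [Fact p.Prime] (G : Type) [AddCommGroup G] [Fintype G] [DecidableEq G]
  (N : AddSubgroup G) (z : G) (D : Finset G), Rds5 p G N z D → ∀ k : ℕ, (part D p (k • z)).card = p ^ 2

/-- the elements of order `p` -/
def Om (p : ℕ) (G : Type) [AddCommGroup G] : AddSubgroup G where
  carrier := {g | p • g = 0}
  zero_mem' := by simp
  add_mem' := by
    intro a b ha hb
    show p • (a + b) = 0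
    have h1 : p • a = 0 := ha
    have h2 : p • b = 0 := hb
    rw [nsmul_add, h1, h2, add_zero]
  neg_mem' := by
    intro a ha
    show p • (-a) = 0
    have h1 : p • a = 0 := ha
    rw [smul_neg, h1, neg_zero]

/-- COO1: coordinates in the first case -/
def COO1 : Prop := ∀ (p : ℕ) [Fact p.Prime] (V : Type) [AddCommGroup V] [Fintype V] (N : AddSubgroup V) (z : V),
  Fintype.card V = p ^ 4 → (∀ v : V, p • v = 0) → Nat.card N = p ^ 2 → z ≠ 0 → z ∈ N →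
  ∃ Φ : V ≃+ (ZMod p × ZMod p) × (ZMod p × ZMod p), Φ z = ((0, 0), (1, 0)) ∧ ∀ v, v ∈ N ↔ (Φ v).1 = (0, 0)

/-- COO2: coordinates in the second case -/
def COO2 : Prop := ∀ (p : ℕ) [Fact p.Prime] (V : Type) [AddCommGroup V] [Fintype V] (N : AddSubgroup V) (z : V),
  Fintype.card V = p ^ 4 → (∀ v : V, p • v = 0) → Nat.card N = p ^ 2 → z ∉ N →
  ∃ Φ : V ≃+ (ZMod p × ZMod p) × (ZMod p × ZMod p), Φ z = ((1, 0), (0, 0)) ∧ ∀ v, v ∈ N ↔ (Φ v).1 = (0, 0)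

/-- EXT: extension of characters -/
def EXT : Prop := ∀ (G : Type) [AddCommGroup G] [Fintype G] (K : AddSubgroup G) (ψ : AddChar K ℂ),
  ∃ χ : AddChar G ℂ, ∀ k : K, χ (k : G) = ψ k

/-- GRA: every part is a graph, in coordinates -/
def GRA : Prop := ∀ (p : ℕ) [Fact p.Prime] (G : Type) [AddCommGroup G] [Fintype G] [DecidableEq G]
  (N : AddSubgroup G) (z : G) (D : Finset G), Rds5 p G N z D →
  ∀ Φ : Om p G ≃+ (ZMod p × ZMod p) × (ZMod p × ZMod p), (∀ v : Om p G, (v : G) ∈ N ↔ (Φ v).1 = (0, 0)) →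
  ∀ k : ℕ, ∃ (d : G) (f g : ZMod p → ZMod p → ZMod p),
    part D p (k • z) = (univ : Finset (ZMod p × ZMod p)).image
      fun q => d + ((Φ.symm ((q.1, q.2), (f q.1 q.2, g q.1 q.2)) : Om p G) : G)

/-- WAL: Walsh coefficients of the graphs -/
def WAL : Prop := ∀ (p : ℕ) [Fact p.Prime] (G : Type) [AddCommGroup G] [Fintype G] [DecidableEq G]
  (N : AddSubgroup G) (z : G) (D : Finset G), Rds5 p G N z D →
  ∀ Φ : Om p G ≃+ (ZMod p × ZMod p) × (ZMod p × ZMod p), (∀ v : Om p G, (v : G) ∈ N ↔ (Φ v).1 = (0, 0)) →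
  ∀ (a d : G) (f g : ZMod p → ZMod p → ZMod p),
    part D p a = (univ : Finset (ZMod p × ZMod p)).image
      (fun q => d + ((Φ.symm ((q.1, q.2), (f q.1 q.2, g q.1 q.2)) : Om p G) : G)) →
  ∀ t c l l' : ZMod p, (l ≠ 0 ∨ l' ≠ 0) →
    (∀ hz : z ∈ Om p G, t * (Φ ⟨z, hz⟩).1.1 + c * (Φ ⟨z, hz⟩).1.2 + l * (Φ ⟨z, hz⟩).2.1 + l' * (Φ ⟨z, hz⟩).2.2 ≠ 0) →
    Good (fun y x => l * f y x + l' * g y x) t c

/-- RDSB: no relative difference sets in groups of order `p ^ 5` -/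
def RDSB : Prop := ∀ (p : ℕ) [Fact p.Prime] (G : Type) [AddCommGroup G] [Fintype G] [DecidableEq G]
  (N : AddSubgroup G) (z : G) (D : Finset G), ¬ Rds5 p G N z D

/-- the hypotheses of the problem -/
structure Rds (p b : ℕ) [Fact p.Prime] (G : Type) [AddCommGroup G] [Fintype G] [DecidableEq G]
    (N : AddSubgroup G) (D : Finset G) : Prop where
  p2 : p ≠ 2
  cardG : Fintype.card G = p ^ (2 * b)
  cardN : Nat.card N = p ^ b
  cardD : D.card = p ^ b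
  rep1 : ∀ g : G, g ∉ N → rep D g = 1
  rep0 : ∀ g : G, g ∈ N → g ≠ 0 → rep D g = 0

/-- MPD: multiplication by `p`, modulo `p` -/
def MPD : Prop := ∀ (p b : ℕ) [Fact p.Prime] (G : Type) [AddCommGroup G] [Fintype G] [DecidableEq G]
  (N : AddSubgroup G) (D : Finset G), Rds p b G N D → 1 ≤ b →
  ∀ g : G, p ∣ ((D ×ˢ D).filter fun q => p • q.1 - q.2 = g).card

/-- SQM: second moment -/
def SQM : Prop := ∀ (p b : ℕ) [Fact p.Prime] (G : Type) [AddCommGroup G] [Fintype G] [DecidableEq G]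
  (N : AddSubgroup G) (D : Finset G), Rds p b G N D → 1 ≤ b →
  ∑ g : G, (((D ×ˢ D).filter fun q => p • q.1 - q.2 = g).card) ^ 2 ≤
    p ^ b * (Nat.card (Om p G) + p ^ b - 1) + p ^ (2 * b) - p ^ b

/-- RNK: rank bound -/
def RNK : Prop := ∀ (p b : ℕ) [Fact p.Prime] (G : Type) [AddCommGroup G] [Fintype G] [DecidableEq G]
  (N : AddSubgroup G) (D : Finset G), Rds p b G N D → 1 ≤ b → p ^ b < Nat.card (Om p G)

/-- RED: reduction to order `p ^ 5` -/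
def RED : Prop := ∀ (p : ℕ) [Fact p.Prime] (G : Type) [AddCommGroup G] [Fintype G] [DecidableEq G]
  (N : AddSubgroup G) (D : Finset G), Rds p 3 G N D → Nat.card (Om p G) = p ^ 4 → (∀ g : G, p ^ 2 • g = 0) →
  ∃ (G' : Type) (_ : AddCommGroup G') (_ : Fintype G') (_ : DecidableEq G') (N' : AddSubgroup G') (z : G')
    (D' : Finset G'), Rds5 p G' N' z D'

end Pool.Agent.H45.R3
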