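import Pool.Agent.H45.R3.Stmts

/-!
# Relative difference sets with `n = p ^ 3`: LINE and C2 from the other modules
-/

set_option autoImplicit false

open Finset

namespace Pool.Agent.H45.R3

theorem line (h1 : LSUP) (h2 : LCOM) (h3 : LDIR) : LINE := by
  intro p _ hp g hg
  obtain ⟨T, ε, j, hT, hm, hε, hn⟩ := h1 p hp g hg
  obtain ⟨d, hd, hd'⟩ := h2 p hp T ε j hT hε hn
  exact h3 p g T d hT hd hd' fun m hw => (hm m).2 hw

theorem c2 (h1 : AFX) (h2 : SLO) (h3 : FIN) : C2 := by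
  intro p _ hp f g hfg
  obtain ⟨l, l', hl, τ, h, hτ⟩ := h1 p hp f g hfg
  have hG : ∀ t c : ZMod p, t ≠ 0 → Good (fun y x => τ x * y + h x) t c := by
    intro t c ht
    have h4 := hfg.1 l l' t c hl ht
    have h5 : (fun y x => l * f y x + l' * g y x) = fun y x => τ x * y + h x := by
      funext y x; exact hτ y x
    rw [h5] at h4
    exact h4
  obtain ⟨h6, h7⟩ := h2 p hp τ h hG
  refine ⟨l, l', hl, ?_⟩
  have h8 : τ 0 = 0 := by
    by_contra hne
    have h9 := h7 hne
    exact hne (h3 p hp f g hfg l l' (τ 0) h hl (fun y x => by rw [hτ, h6 x 0]) h9)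
  intro y y' x
  rw [hτ, hτ, h6 x 0, h8, zero_mul, zero_mul]

end Pool.Agent.H45.R3
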