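import Pool.Agent.H45.R3.Stmts

/-!
# NRM and CARR
-/

set_option autoImplicit false
set_option linter.unusedSectionVars false

open Finset

namespace Pool.Agent.H45.R3

open Pool.Agent.H56.RDS

theorem nrm : NRM := by
  intro p _ G _ _ _ N z D h χ hχ
  classical
  have h1 := norm_sq_cs χ D
  have h2 : ∀ g : G, (rep D g : ℂ) * χ g =
      (if g = 0 then ((p : ℂ) ^ 3) else 0) + (p : ℂ) * χ g - (if g ∈ N then (p : ℂ) * χ g else 0) := by
    intro g
    by_cases h0 : g = 0
    · rw [h0, rep_zero, if_pos rfl, if_pos N.zero_mem, AddChar.map_zero_eq_one, h.cardD]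
      push_cast; ring
    · rw [if_neg h0]
      by_cases hN : g ∈ N
      · rw [if_pos hN, h.rep0 g hN h0]; simp
      · rw [if_neg hN, h.rep1 g hN]; simp
  rw [Finset.sum_congr rfl (fun g _ => h2 g), Finset.sum_sub_distrib, Finset.sum_add_distrib,
    Finset.sum_ite_eq' Finset.univ (0 : G), if_pos (Finset.mem_univ _), ← Finset.sum_filter, ← Finset.mul_sum,
    ← Finset.mul_sum, sum_subgroup_zero N χ hχ] at h1
  have h3 : ∑ g, χ g = 0 := by
    have h4 := sum_subgroup_zero (⊤ : AddSubgroup G) χ (by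
      obtain ⟨x, _, hx⟩ := hχ
      exact ⟨x, AddSubgroup.mem_top x, hx⟩)
    simpa using h4
  rw [h3, mul_zero, add_zero, sub_zero] at h1
  exact_mod_cast h1

theorem carr (hN : NRM) : CARR := by
  intro p hp G _ _ _ N z D h χ h1 hz
  classical
  have hpp := hp.out
  have hexp : ∀ g : G, p ^ (1 + 1) • g = 0 := by
    intro g
    obtain ⟨k, hk⟩ := h.mz g
    rw [pow_succ, pow_one, mul_nsmul', hk, smul_comm, h.pz, nsmul_zero]
  set A : AddSubgroup G := AddSubgroup.zmultiples z with hA'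
  have hA : ∀ g : G, p • g ∈ A := by
    intro g
    obtain ⟨k, hk⟩ := h.mz g
    rw [hk]
    exact AddSubgroup.nsmul_mem_zmultiples z k
  have hAc : Nat.card A = p := by
    rw [hA', Nat.card_zmultiples]
    exact addOrderOf_eq_prime h.pz h.z0
  have h2 : ∃ x ∈ A, χ x ≠ 1 := ⟨z, AddSubgroup.mem_zmultiples z, hz⟩
  have hq0 : p ^ (1 + 1) ≠ 0 := pow_ne_zero _ hpp.ne_zero
  obtain ⟨ζ, hζ⟩ : ∃ ζ : ℂ, IsPrimitiveRoot ζ (p ^ (1 + 1)) :=
    ⟨_, Complex.isPrimitiveRoot_exp _ hq0⟩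
  have hval : ∀ g : G, ∃ i : ℕ, ζ ^ i = χ g := by
    intro g
    have h3 : χ g ^ (p ^ (1 + 1)) = 1 := by
      rw [← AddChar.map_nsmul_eq_pow, hexp, AddChar.map_zero_eq_one]
    have : NeZero (p ^ (1 + 1)) := ⟨hq0⟩
    obtain ⟨i, _, hi⟩ := hζ.eq_pow_of_pow_eq_one h3
    exact ⟨i, hi⟩
  choose i hi using hval
  have hsum : ∀ t : ℕ, ∑ d ∈ D, ζ ^ (t * i d) = cs (χ ^ t) D := by
    intro t
    unfold cs
    refine Finset.sum_congr rfl (fun d _ => ?_)
    rw [AddChar.pow_apply, ← hi d, ← pow_mul, mul_comm]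
  obtain ⟨ω, hω1, hω2⟩ := key_num (p := p) (k := 1) h.p2 le_rfl D i 3 ζ hζ (by
    intro t ht
    rw [hsum, hN p G N z D h (χ ^ t) ?_]
    obtain ⟨x, hx, hx'⟩ := h1
    refine ⟨x, hx, fun h3 => hx' ?_⟩
    rw [AddChar.pow_apply] at h3
    have h4 : χ x ^ (p ^ (1 + 1)) = 1 := by
      rw [← AddChar.map_nsmul_eq_pow, hexp, AddChar.map_zero_eq_one]
    have h5 : orderOf (χ x) ∣ Nat.gcd t (p ^ (1 + 1)) :=
      Nat.dvd_gcd (orderOf_dvd_of_pow_eq_one h3) (orderOf_dvd_of_pow_eq_one h4)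
    rw [Nat.Coprime.pow_right _ ht] at h5
    exact orderOf_eq_one_iff.mp (Nat.dvd_one.mp h5))
  have hsum1 : ∑ d ∈ D, ζ ^ (i d) = cs χ D := by
    have := hsum 1
    simpa using this
  intro a
  have hfull : ‖cs χ D‖ ^ 2 = (p : ℝ) ^ 3 := hN p G N z D h χ h1
  by_cases ha : a ∈ A
  · set c := χ a with hc
    have hc0 : c ≠ 0 := by
      intro h0
      have := AddChar.norm_apply χ a
      rw [← hc, h0, norm_zero] at this
      exact zero_ne_one this
    have hpa : ∀ x ∈ A, p • x = 0 := by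
      intro x hx
      have h3 : p • (⟨x, hx⟩ : A) = 0 := by
        have h4 := card_nsmul_eq_zero' (x := (⟨x, hx⟩ : A))
        rwa [hAc] at h4
      exact congrArg Subtype.val h3
    have hcp : ∀ x ∈ A, χ x ^ p = 1 := by
      intro x hx
      rw [← AddChar.map_nsmul_eq_pow, hpa x hx, AddChar.map_zero_eq_one]
    have hL : ∑ j ∈ Finset.range p, (c⁻¹) ^ j * ∑ d ∈ D, ζ ^ ((1 + j * p ^ 1) * i d)
        = (p : ℂ) * cs χ (part D p a) := by
      have e1 : ∀ j ∈ Finset.range p, (c⁻¹) ^ j * ∑ d ∈ D, ζ ^ ((1 + j * p ^ 1) * i d)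
          = ∑ d ∈ D, χ d * (c⁻¹ * χ (p • d)) ^ j := by
        intro j _
        rw [Finset.mul_sum]
        refine Finset.sum_congr rfl (fun d _ => ?_)
        have e2 : (1 + j * p ^ 1) * i d = i d + (i d) * p * j := by ring
        rw [e2, pow_add, pow_mul, pow_mul, hi d, mul_pow, AddChar.map_nsmul_eq_pow]
        ring
      rw [Finset.sum_congr rfl e1, Finset.sum_comm]
      have e3 : ∀ d ∈ D, ∑ j ∈ Finset.range p, χ d * (c⁻¹ * χ (p • d)) ^ j
          = if p • d = a then (p : ℂ) * χ d else 0 := by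
        intro d _
        rw [← Finset.mul_sum, sum_roots]
        · by_cases hd : p • d = a
          · rw [if_pos hd, if_pos (by rw [hd, ← hc, inv_mul_cancel₀ hc0])]; ring
          · rw [if_neg hd, if_neg, mul_zero]
            intro h3
            apply hd
            have h4 : χ (p • d - a) = 1 := by
              rw [AddChar.map_sub_eq_div, ← hc, div_eq_mul_inv, mul_comm, h3]
            exact sub_eq_zero.mp (inj_on_prime A hAc χ h2 (A.sub_mem (hA d) ha) h4)
        · rw [mul_pow, inv_pow, hcp a ha, hcp _ (hA d)]; simp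
      rw [Finset.sum_congr rfl e3, ← Finset.sum_filter]
      unfold cs part
      rw [Finset.mul_sum]
    have hR : ∑ j ∈ Finset.range p, (c⁻¹) ^ j * ∑ d ∈ D, ζ ^ ((1 + j * p ^ 1) * i d)
        = (if c⁻¹ * ω = 1 then (p : ℂ) else 0) * cs χ D := by
      rw [← sum_roots (c⁻¹ * ω) (by rw [mul_pow, inv_pow, hcp a ha, hω1]; simp), Finset.sum_mul]
      refine Finset.sum_congr rfl (fun j _ => ?_)
      rw [hω2 j, hsum1, mul_pow]; ring
    rw [hL] at hR
    have hpc : (p : ℂ) ≠ 0 := by exact_mod_cast hpp.ne_zero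
    by_cases hcω : c⁻¹ * ω = 1
    · right
      rw [if_pos hcω] at hR
      rw [mul_left_cancel₀ hpc hR]
      exact hfull
    · left
      rw [if_neg hcω, zero_mul] at hR
      exact (mul_eq_zero.mp hR).resolve_left hpc
  · left
    have : part D p a = ∅ := by
      unfold part
      rw [Finset.filter_eq_empty_iff]
      intro d _ hd
      exact ha (hd ▸ hA d)
    rw [this]; unfold cs; simp

end Pool.Agent.H45.R3
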