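import Pool.Agent.H45.R3.Stmts

/-!
# COO1 and COO2: coordinates
-/

set_option autoImplicit false
set_option linter.unusedSectionVars false

open Finset Module

namespace Pool.Agent.H45.R3

section
variable {p : ℕ} [Fact p.Prime]

/-- an automorphism of the plane which moves a vector to `(1, 0)` -/
lemma move (w : ZMod p × ZMod p) (hw : w ≠ 0) :
    ∃ A : (ZMod p × ZMod p) ≃+ (ZMod p × ZMod p), A w = (1, 0) := by
  by_cases ha : w.1 = 0
  · have hb : w.2 ≠ 0 := fun h => hw (Prod.ext ha h)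
    refine ⟨{ toFun := fun v => (v.2 * w.2⁻¹, v.1)
              invFun := fun v => (v.2, v.1 * w.2)
              left_inv := ?_
              right_inv := ?_
              map_add' := ?_ }, ?_⟩
    · intro v
      refine Prod.ext rfl ?_
      show v.2 * w.2⁻¹ * w.2 = v.2
      rw [inv_mul_cancel_right₀ hb]
    · intro v
      refine Prod.ext ?_ rfl
      show v.1 * w.2 * w.2⁻¹ = v.1
      rw [mul_inv_cancel_right₀ hb]
    · intro v v'
      refine Prod.ext ?_ ?_
      · show (v.2 + v'.2) * w.2⁻¹ = v.2 * w.2⁻¹ + v'.2 * w.2⁻¹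
        ring
      · rfl
    · show (w.2 * w.2⁻¹, w.1) = (1, 0)
      rw [mul_inv_cancel₀ hb, ha]
  · refine ⟨{ toFun := fun v => (v.1 * w.1⁻¹, v.2 - w.2 * (v.1 * w.1⁻¹))
              invFun := fun v => (v.1 * w.1, v.2 + w.2 * v.1)
              left_inv := ?_
              right_inv := ?_
              map_add' := ?_ }, ?_⟩
    · intro v
      refine Prod.ext ?_ ?_
      · show v.1 * w.1⁻¹ * w.1 = v.1
        rw [inv_mul_cancel_right₀ ha]
      · show v.2 - w.2 * (v.1 * w.1⁻¹) + w.2 * (v.1 * w.1⁻¹) = v.2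
        ring
    · intro v
      refine Prod.ext ?_ ?_
      · show v.1 * w.1 * w.1⁻¹ = v.1
        rw [mul_inv_cancel_right₀ ha]
      · show v.2 + w.2 * v.1 - w.2 * (v.1 * w.1 * w.1⁻¹) = v.2
        rw [mul_inv_cancel_right₀ ha]; ring
    · intro v v'
      refine Prod.ext ?_ ?_
      · show (v.1 + v'.1) * w.1⁻¹ = v.1 * w.1⁻¹ + v'.1 * w.1⁻¹
        ring
      · show (v.2 + v'.2) - w.2 * ((v.1 + v'.1) * w.1⁻¹) =
          (v.2 - w.2 * (v.1 * w.1⁻¹)) + (v'.2 - w.2 * (v'.1 * w.1⁻¹))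
        ring
    · show (w.1 * w.1⁻¹, w.2 - w.2 * (w.1 * w.1⁻¹)) = (1, 0)
      rw [mul_inv_cancel₀ ha, mul_one, sub_self]

/-- coordinates of a plane -/
lemma plane (U : Type) [AddCommGroup U] [Module (ZMod p) U] [Finite U] (hU : Nat.card U = p ^ 2) :
    Nonempty (U ≃ₗ[ZMod p] (ZMod p × ZMod p)) := by
  have hp : p.Prime := Fact.out
  have : Fintype U := Fintype.ofFinite U
  have : Module.Finite (ZMod p) U := Module.Finite.of_finite
  have h1 : Fintype.card U = Fintype.card (ZMod p) ^ finrank (ZMod p) U := Module.card_eq_pow_finrank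
  rw [ZMod.card, ← Nat.card_eq_fintype_card, hU] at h1
  have h2 : finrank (ZMod p) U = 2 := (Nat.pow_right_injective hp.two_le h1).symm
  refine ⟨LinearEquiv.ofFinrankEq _ _ ?_⟩
  rw [h2, Module.finrank_prod, Module.finrank_self]

/-- splitting for submodules -/
lemma split' (V : Type) [AddCommGroup V] [Module (ZMod p) V] [Fintype V] (N' : Submodule (ZMod p) V)
    (hV : Fintype.card V = p ^ 4) (hN' : Nat.card N' = p ^ 2) :
    ∃ Φ : V ≃+ (ZMod p × ZMod p) × (ZMod p × ZMod p), ∀ v, v ∈ N' ↔ (Φ v).1 = 0 := by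
  have hp : p.Prime := Fact.out
  obtain ⟨C, hC⟩ := N'.exists_isCompl
  have e0 : (N' × C) ≃ₗ[ZMod p] V := Submodule.prodEquivOfIsCompl N' C hC
  have hcC : Nat.card C = p ^ 2 := by
    have h1 : Nat.card N' * Nat.card C = Nat.card V := by
      rw [← Nat.card_prod]
      exact Nat.card_congr e0.toEquiv
    rw [hN', Nat.card_eq_fintype_card (α := V), hV] at h1
    have h2 : p ^ 2 * Nat.card C = p ^ 2 * p ^ 2 := by rw [h1]; ring
    exact Nat.eq_of_mul_eq_mul_left (pow_pos hp.pos 2) h2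
  obtain ⟨α⟩ := plane (p := p) N' hN'
  obtain ⟨γ⟩ := plane (p := p) C hcC
  let e1 : (N' × C) ≃ₗ[ZMod p] V := Submodule.prodEquivOfIsCompl N' C hC
  let e2 : (C × N') ≃ₗ[ZMod p] ((ZMod p × ZMod p) × (ZMod p × ZMod p)) := LinearEquiv.prodCongr γ α
  let e3 : (N' × C) ≃ₗ[ZMod p] (C × N') := LinearEquiv.prodComm (ZMod p) N' C
  refine ⟨((e1.symm.trans e3).trans e2).toAddEquiv, ?_⟩
  intro v
  have h1 : (((e1.symm.trans e3).trans e2).toAddEquiv v).1 = γ (e1.symm v).2 := rfl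
  rw [h1]
  have h2 : γ (e1.symm v).2 = 0 ↔ (e1.symm v).2 = 0 := by
    constructor
    · intro h; exact γ.map_eq_zero_iff.1 h
    · intro h; rw [h, map_zero]
  rw [h2]
  have h3 : (e1.symm v).2 = 0 ↔ v ∈ N' := Submodule.prodEquivOfIsCompl_symm_apply_snd_eq_zero N' C hC
  rw [h3]

/-- splitting -/
lemma split (V : Type) [AddCommGroup V] [Fintype V] (N : AddSubgroup V) (hV : Fintype.card V = p ^ 4)
    (hexp : ∀ v : V, p • v = 0) (hN : Nat.card N = p ^ 2) :
    ∃ Φ : V ≃+ (ZMod p × ZMod p) × (ZMod p × ZMod p), ∀ v, v ∈ N ↔ (Φ v).1 = 0 := by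
  have hM : Module (ZMod p) V := AddCommGroup.zmodModule hexp
  exact split' V (AddSubgroup.toZModSubmodule p N) hV hN

end

theorem coo1 : COO1 := by
  intro p _ V _ _ N z hV hexp hN hz0 hzN
  obtain ⟨Φ, hΦ⟩ := split V N hV hexp hN
  have h1 : (Φ z).1 = 0 := (hΦ z).1 hzN
  have h2 : (Φ z).2 ≠ 0 := by
    intro h2
    have h3 : Φ z = 0 := Prod.ext h1 h2
    exact hz0 (Φ.map_eq_zero_iff.1 h3)
  obtain ⟨A, hA⟩ := move (Φ z).2 h2
  refine ⟨Φ.trans (AddEquiv.prodCongr (AddEquiv.refl _) A), ?_, ?_⟩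
  · show ((Φ z).1, A (Φ z).2) = ((0, 0), (1, 0))
    rw [h1, hA]; rfl
  · intro v
    exact hΦ v

theorem coo2 : COO2 := by
  intro p _ V _ _ N z hV hexp hN hzN
  obtain ⟨Φ, hΦ⟩ := split V N hV hexp hN
  have h1 : (Φ z).1 ≠ 0 := fun h => hzN ((hΦ z).2 h)
  obtain ⟨A, hA⟩ := move (Φ z).1 h1
  obtain ⟨s, t, hst⟩ : ∃ s t : ZMod p, (Φ z).2 = (s, t) := ⟨(Φ z).2.1, (Φ z).2.2, rfl⟩
  let S : ((ZMod p × ZMod p) × (ZMod p × ZMod p)) ≃+ ((ZMod p × ZMod p) × (ZMod p × ZMod p)) :=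
    { toFun := fun q => (A q.1, (q.2.1 - s * (A q.1).1, q.2.2 - t * (A q.1).1))
      invFun := fun q => (A.symm q.1, (q.2.1 + s * q.1.1, q.2.2 + t * q.1.1))
      left_inv := by
        intro q
        refine Prod.ext ?_ (Prod.ext ?_ ?_)
        · show A.symm (A q.1) = q.1
          exact A.symm_apply_apply _
        · show q.2.1 - s * (A q.1).1 + s * (A q.1).1 = q.2.1
          ring
        · show q.2.2 - t * (A q.1).1 + t * (A q.1).1 = q.2.2
          ring
      right_inv := by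
        intro q
        refine Prod.ext ?_ (Prod.ext ?_ ?_)
        · show A (A.symm q.1) = q.1
          exact A.apply_symm_apply _
        · show q.2.1 + s * q.1.1 - s * (A (A.symm q.1)).1 = q.2.1
          rw [A.apply_symm_apply]; ring
        · show q.2.2 + t * q.1.1 - t * (A (A.symm q.1)).1 = q.2.2
          rw [A.apply_symm_apply]; ring
      map_add' := by
        intro q q'
        refine Prod.ext ?_ (Prod.ext ?_ ?_)
        · show A (q.1 + q'.1) = A q.1 + A q'.1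
          exact map_add _ _ _
        · show q.2.1 + q'.2.1 - s * (A (q.1 + q'.1)).1 = (q.2.1 - s * (A q.1).1) + (q'.2.1 - s * (A q'.1).1)
          rw [map_add, Prod.fst_add]; ring
        · show q.2.2 + q'.2.2 - t * (A (q.1 + q'.1)).1 = (q.2.2 - t * (A q.1).1) + (q'.2.2 - t * (A q'.1).1)
          rw [map_add, Prod.fst_add]; ring }
  refine ⟨Φ.trans S, ?_, ?_⟩
  · show (A (Φ z).1, ((Φ z).2.1 - s * (A (Φ z).1).1, (Φ z).2.2 - t * (A (Φ z).1).1)) = ((1, 0), (0, 0))
    rw [hA, hst]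
    simp
  · intro v
    rw [hΦ v]
    show (Φ v).1 = 0 ↔ A (Φ v).1 = (0, 0)
    constructor
    · intro h; rw [h, map_zero]; rfl
    · intro h
      exact A.map_eq_zero_iff.1 h

end Pool.Agent.H45.R3
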