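import Pool.Agent.H45.R3.Stmts

/-!
# EXT: extension of characters
-/

set_option autoImplicit false

open Finset

namespace Pool.Agent.H45.R3

open Pool.Agent.H56.RDS

theorem ext : EXT := by
  intro G _ _ K ψ
  classical
  have hne : ∀ x : K, ψ x ≠ 0 := by
    intro x hx
    have h1 := AddChar.map_add_eq_mul ψ x (-x)
    rw [add_neg_cancel, AddChar.map_zero_eq_one, hx, zero_mul] at h1
    exact one_ne_zero h1
  have hM : HasEnoughRootsOfUnity ℂ (Monoid.exponent (Multiplicative G)) := by
    have : NeZero (Monoid.exponent (Multiplicative G)) := ⟨Monoid.exponent_ne_zero_of_finite⟩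
    infer_instance
  let K' : Subgroup (Multiplicative G) := AddSubgroup.toSubgroup K
  have hs := MonoidHom.domRestrict_surjective (M := ℂ) K'
  -- the character on `K'` as a hom to units
  let φ : K' →* ℂˣ :=
    { toFun := fun k => Units.mk0 (ψ ⟨Multiplicative.toAdd k.1, k.2⟩) (hne _)
      map_one' := by
        ext
        exact AddChar.map_zero_eq_one ψ
      map_mul' := by
        intro a b
        ext
        exact AddChar.map_add_eq_mul ψ _ _ }
  obtain ⟨Φ, hΦ⟩ := hs φ
  refine ⟨{ toFun := fun g => (Φ (Multiplicative.ofAdd g) : ℂ)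
            map_zero_eq_one' := by simp
            map_add_eq_mul' := by intro a b; simp }, ?_⟩
  intro k
  show (Φ (Multiplicative.ofAdd (k : G)) : ℂ) = ψ k
  have h1 := DFunLike.congr_fun hΦ (⟨Multiplicative.ofAdd (k : G), k.2⟩ : K')
  have h2 := congrArg (fun u : ℂˣ => (u : ℂ)) h1
  exact h2

end Pool.Agent.H45.R3
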