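import Pool.Agent.H45.R3.Stmts
import Pool.Agent.H56.RDSFinal

/-!
# Relative difference sets with `n = p ^ b`, `b ≤ 3`: assembly
-/

set_option autoImplicit false
set_option linter.unusedSectionVars false

open Finset

namespace Pool.Agent.H45.R3

open Pool.Agent.H56.RDS

section
variable {p b : ℕ} [Fact p.Prime] {G : Type} [AddCommGroup G] [Fintype G] [DecidableEq G]
  {N : AddSubgroup G} {D : Finset G}

/-- the theorem of helper56: `p ^ k • G` does not have order `p` -/
lemma Rds.range_ne (h : Rds p b G N D) (k : ℕ) (hk : 1 ≤ k) :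
    Nat.card (nsmulAddMonoidHom (α := G) (p ^ k)).range ≠ p := by
  intro hc
  set A : AddSubgroup G := (nsmulAddMonoidHom (α := G) (p ^ k)).range with hA
  have hpA : ∀ x ∈ A, p • x = 0 := by
    intro x hx
    have h3 : p • (⟨x, hx⟩ : A) = 0 := by
      have h4 := card_nsmul_eq_zero' (x := (⟨x, hx⟩ : A))
      rwa [hc] at h4
    exact congrArg Subtype.val h3
  have hmem : ∀ g : G, p ^ k • g ∈ A := fun g => ⟨g, rfl⟩
  have hexp : ∀ g : G, p ^ (k + 1) • g = 0 := by
    intro g
    rw [pow_succ', mul_nsmul', hpA _ (hmem g)]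
  exact card_ne_prime N D h.rep1 h.rep0 h.p2 hk h.cardG h.cardN h.cardD hexp A hmem
    (fun a ha => by obtain ⟨g, hg⟩ := ha; exact ⟨g, hg⟩) hc

lemma card_range_mul : Nat.card (nsmulAddMonoidHom (α := G) p).range * Nat.card (Om p G) = Nat.card G := by
  let m : G →+ G := nsmulAddMonoidHom (α := G) p
  have h1 : m.ker = Om p G := by
    ext x
    rw [AddMonoidHom.mem_ker]
    exact Iff.rfl
  have h3 : Nat.card G = Nat.card (G ⧸ m.ker) * Nat.card m.ker :=
    AddSubgroup.card_eq_card_quotient_mul_card_addSubgroup _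
  have h4 : Nat.card (G ⧸ m.ker) = Nat.card m.range :=
    Nat.card_congr (QuotientAddGroup.quotientKerEquivRange m).toEquiv
  rw [h4, h1] at h3
  exact h3.symm

end

theorem final (hRNK : RNK) (hRED : RED) (hB : RDSB) (p b : ℕ) [Fact p.Prime] (hb : b ≤ 3) (G : Type) [AddCommGroup G]
    [Fintype G] [DecidableEq G] (N : AddSubgroup G) (D : Finset G) (h : Rds p b G N D) : ∀ g : G, p • g = 0 := by
  classical
  have hp : p.Prime := Fact.out
  by_contra hcon
  push Not at hcon
  obtain ⟨g₀, hg₀⟩ := hcon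
  have hb1 : 1 ≤ b := by
    by_contra hb0
    have hb0' : b = 0 := by omega
    have h1 : Fintype.card G = 1 := by rw [h.cardG, hb0']; simp
    have h2 := Fintype.card_le_one_iff.1 h1.le
    exact hg₀ (h2 _ _)
  set m1 : G →+ G := nsmulAddMonoidHom (α := G) p with hm1
  have hmul := card_range_mul (p := p) (G := G)
  rw [Nat.card_eq_fintype_card (α := G), h.cardG] at hmul
  have hdvd : Nat.card m1.range ∣ p ^ (2 * b) := Dvd.intro _ hmul
  have hdvd' : Nat.card (Om p G) ∣ p ^ (2 * b) := Dvd.intro_left _ hmul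
  obtain ⟨i, _, hi⟩ := (Nat.dvd_prime_pow hp).1 hdvd
  obtain ⟨j, _, hj⟩ := (Nat.dvd_prime_pow hp).1 hdvd'
  have hij : i + j = 2 * b := by
    rw [hi, hj, ← pow_add] at hmul
    exact Nat.pow_right_injective hp.two_le hmul
  have hjb : b < j := by
    have h1 := hRNK p b G N D h hb1
    rw [hj] at h1
    exact (Nat.pow_lt_pow_iff_right hp.one_lt).1 h1
  have hi0 : i ≠ 0 := by
    rintro rfl
    rw [pow_zero] at hi
    have h1 : m1.range = ⊥ := AddSubgroup.card_eq_one.mp hi
    have h2 : p • g₀ ∈ m1.range := ⟨g₀, rfl⟩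
    rw [h1] at h2
    exact hg₀ h2
  have hi1 : i ≠ 1 := by
    rintro rfl
    have h1 := h.range_ne 1 le_rfl
    rw [pow_one] at h1
    rw [pow_one] at hi
    exact h1 hi
  have hbi : b = 3 ∧ i = 2 ∧ j = 4 := by omega
  obtain ⟨rfl, rfl, rfl⟩ := hbi
  have hexp : ∀ g : G, p ^ 2 • g = 0 := by
    set m2 : G →+ G := nsmulAddMonoidHom (α := G) (p ^ 2) with hm2
    have hle : m2.range ≤ m1.range := by
      rintro x ⟨g, rfl⟩
      refine ⟨p • g, ?_⟩
      show p • (p • g) = p ^ 2 • g
      rw [← mul_nsmul', ← pow_two]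
    have hd2 : Nat.card m2.range ∣ p ^ 2 := by
      rw [← hi]
      exact AddSubgroup.card_dvd_of_le hle
    obtain ⟨k, hk, hk'⟩ := (Nat.dvd_prime_pow hp).1 hd2
    have hk1 : k ≠ 1 := by
      rintro rfl
      rw [pow_one] at hk'
      exact h.range_ne 2 (by norm_num) hk'
    have hk2 : k ≠ 2 := by
      rintro rfl
      have heq : m2.range = m1.range := AddSubgroup.eq_of_le_of_card_ge hle (by rw [hi, hk'])
      have hall : ∀ n : ℕ, ∀ x ∈ m1.range, ∃ g : G, p ^ n • g = x := by
        intro n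
        induction n with
        | zero => intro x _; exact ⟨x, by simp⟩
        | succ n ih =>
          intro x hx
          rw [← heq] at hx
          obtain ⟨g, hg⟩ := hx
          obtain ⟨g', hg'⟩ := ih (p • g) ⟨g, rfl⟩
          refine ⟨g', ?_⟩
          rw [pow_succ', mul_nsmul', hg', ← hg]
          show p • (p • g) = p ^ 2 • g
          rw [← mul_nsmul', ← pow_two]
      obtain ⟨g, hg⟩ := hall (2 * 3) (p • g₀) ⟨g₀, rfl⟩
      have h5 : p ^ (2 * 3) • g = 0 := by
        rw [← h.cardG]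
        exact card_nsmul_eq_zero
      rw [h5] at hg
      exact hg₀ hg.symm
    have hk0 : k = 0 := by omega
    rw [hk0, pow_zero] at hk'
    have h6 : m2.range = ⊥ := AddSubgroup.card_eq_one.mp hk'
    intro g
    have h7 : p ^ 2 • g ∈ m2.range := ⟨g, rfl⟩
    rw [h6] at h7
    exact h7
  obtain ⟨G', i1, i2, i3, N', z, D', h5⟩ := hRED p G N D h hj hexp
  exact hB p G' N' z D' h5

end Pool.Agent.H45.R3
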