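import Pool.Agent.H45.R3.Ldir

/-!
# FIV: the case `p = 5`
-/

set_option autoImplicit false
set_option linter.unusedSectionVars false

open Finset

namespace Pool.Agent.H45.R3

section
variable {p : ℕ} [Fact p.Prime]

/-- Galois conjugation of a vanishing sum -/
lemma gal (hV : VAN) {ι : Type*} [Fintype ι] (h : ι → ZMod p) (k : ZMod p) (hk : k ≠ 0)
    (h0 : ∑ i, e (h i) = 0) : ∑ i, e (k * h i) = 0 := by
  classical
  have h1 : ∀ s : ZMod p, ∑ i, e (s * h i) =
      ∑ v, (((univ.filter fun i => h i = v).card : ℤ) : ℂ) * e (s * v) := by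
    intro s
    rw [← Finset.sum_fiberwise univ h (fun i => e (s * h i))]
    refine Finset.sum_congr rfl fun v _ => ?_
    rw [Finset.sum_congr rfl (g := fun _ => e (s * v)) (fun i hi => by rw [(Finset.mem_filter.1 hi).2]),
      Finset.sum_const, nsmul_eq_mul]
    push_cast
    rfl
  have h2 := h1 1
  simp only [one_mul] at h2
  rw [h0] at h2
  have h3 := hV p (fun v => ((univ.filter fun i => h i = v).card : ℤ)) h2.symm
  rw [h1 k]
  have h4 : ∀ v : ZMod p, (((univ.filter fun i => h i = v).card : ℤ) : ℂ) * e (k * v) =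
      (((univ.filter fun i => h i = 0).card : ℤ) : ℂ) * e (v * k) := by
    intro v
    rw [h3 v 0, mul_comm k v]
  rw [Finset.sum_congr rfl fun v _ => h4 v, ← Finset.mul_sum, e_sum, if_neg hk, mul_zero]

lemma gal_iff (hV : VAN) {ι : Type*} [Fintype ι] (h : ι → ZMod p) (k : ZMod p) (hk : k ≠ 0) :
    ∑ i, e (k * h i) = 0 ↔ ∑ i, e (h i) = 0 := by
  constructor
  · intro h1
    have h2 := gal hV (fun i => k * h i) k⁻¹ (inv_ne_zero hk) h1
    simpa [inv_mul_cancel_left₀ hk] using h2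
  · exact gal hV h k hk

/-- Parseval for a function on `ZMod p` -/
lemma pars (G : ZMod p → ℂ) : ∑ c : ZMod p, ‖∑ x, G x * e (c * x)‖ ^ 2 = p * ∑ x, ‖G x‖ ^ 2 := by
  have h1 : ∀ c : ZMod p, ((‖∑ x, G x * e (c * x)‖ ^ 2 : ℝ) : ℂ) =
      ∑ x, ∑ x', G x * (starRingEnd ℂ) (G x') * e (c * (x - x')) := by
    intro c
    push_cast
    rw [← Complex.mul_conj', map_sum, Finset.sum_mul_sum]
    refine Finset.sum_congr rfl fun x _ => Finset.sum_congr rfl fun x' _ => ?_
    rw [map_mul]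
    have h2 : (starRingEnd ℂ) (e (c * x')) = e (-(c * x')) := (AddChar.map_neg_eq_conj _ _).symm
    rw [h2]
    have h3 : e (c * (x - x')) = e (c * x) * e (-(c * x')) := by
      rw [← e_add]; congr 1; ring
    rw [h3]; ring
  have h2 : ((∑ c : ZMod p, ‖∑ x, G x * e (c * x)‖ ^ 2 : ℝ) : ℂ) = ((p * ∑ x, ‖G x‖ ^ 2 : ℝ) : ℂ) := by
    rw [Complex.ofReal_sum, Finset.sum_congr rfl fun c _ => h1 c, Finset.sum_comm]
    push_cast
    rw [Finset.mul_sum]
    refine Finset.sum_congr rfl fun x _ => ?_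
    rw [Finset.sum_comm]
    have h3 : ∀ x' : ZMod p, ∑ c : ZMod p, G x * (starRingEnd ℂ) (G x') * e (c * (x - x')) =
        if x' = x then (p : ℂ) * (G x * (starRingEnd ℂ) (G x)) else 0 := by
      intro x'
      rw [← Finset.mul_sum, e_sum]
      by_cases hx : x' = x
      · subst hx; simp; ring
      · rw [if_neg hx, if_neg (sub_ne_zero.2 (Ne.symm hx)), mul_zero]
    rw [Finset.sum_congr rfl fun x' _ => h3 x', Finset.sum_ite_eq' Finset.univ x, if_pos (Finset.mem_univ _),
      Complex.mul_conj']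
  exact_mod_cast h2

/-- number of coincidences -/
def coin (h : ZMod p → ZMod p) : ℕ := ((univ : Finset (ZMod p × ZMod p)).filter fun q => h q.1 = h q.2).card

lemma sum_coin (h : ZMod p → ZMod p) : ∑ k : ZMod p, ‖∑ y, e (k * h y)‖ ^ 2 = p * (coin h : ℝ) := by
  classical
  have h1 : ∀ k : ZMod p, ((‖∑ y, e (k * h y)‖ ^ 2 : ℝ) : ℂ) = ∑ y, ∑ y', e (k * (h y - h y')) := by
    intro k
    push_cast
    rw [← Complex.mul_conj', map_sum, Finset.sum_mul_sum]
    refine Finset.sum_congr rfl fun y _ => Finset.sum_congr rfl fun y' _ => ?_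
    have h2 : (starRingEnd ℂ) (e (k * h y')) = e (-(k * h y')) := (AddChar.map_neg_eq_conj _ _).symm
    rw [h2, ← e_add]; congr 1; ring
  have h2 : ((∑ k : ZMod p, ‖∑ y, e (k * h y)‖ ^ 2 : ℝ) : ℂ) = ((p * (coin h : ℝ) : ℝ) : ℂ) := by
    rw [Complex.ofReal_sum, Finset.sum_congr rfl fun c _ => h1 c, Finset.sum_comm]
    rw [Finset.sum_congr rfl fun y _ => Finset.sum_comm]
    have h3 : ∀ y y' : ZMod p, ∑ k : ZMod p, e (k * (h y - h y')) = if h y = h y' then (p : ℂ) else 0 := by
      intro y y'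
      rw [e_sum]
      by_cases hy : h y = h y'
      · rw [if_pos hy, if_pos (sub_eq_zero.2 hy)]
      · rw [if_neg hy, if_neg (fun hc => hy (sub_eq_zero.1 hc))]
    simp only [h3]
    rw [← Finset.sum_product' univ univ (fun y y' => if h y = h y' then (p : ℂ) else 0), Finset.univ_product_univ,
      ← Finset.sum_filter, Finset.sum_const, nsmul_eq_mul]
    unfold coin
    push_cast
    ring
  exact_mod_cast h2

end

/-- lower bounds for the number of coincidences -/
def lb (s : ZMod 5) : ℕ := if s = 0 then 5 else if s = 1 ∨ s = 4 then 9 else 11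

def co5 (a b c d g : ZMod 5) : ℕ :=
  5 + 2 * ((if a = b then 1 else 0) + (if a = c then 1 else 0) + (if a = d then 1 else 0) + (if a = g then 1 else 0) +
    (if b = c then 1 else 0) + (if b = d then 1 else 0) + (if b = g then 1 else 0) +
    (if c = d then 1 else 0) + (if c = g then 1 else 0) + (if d = g then 1 else 0))

lemma lb_le : ∀ a b c d g : ZMod 5, a + b + c + d + g = 0 →
    lb (a ^ 2 + b ^ 2 + c ^ 2 + d ^ 2 + g ^ 2) ≤ co5 a b c d g := by
  decide +kernel

lemma d1 : ∑ y : ZMod 5, y ^ 2 = 0 := by decide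
lemma d2 : ∑ y : ZMod 5, y = 0 := by decide
lemma d3 : (2 : ZMod 5) ≠ 0 := by decide
lemma d4 : lb 3 = 11 := by decide
lemma d4' : lb 2 = 11 := by decide
lemma d5 : (2 : ZMod 5) ≠ 3 := by decide

lemma sum5 {M : Type*} [AddCommMonoid M] (F : ZMod 5 → M) : ∑ y, F y = F 0 + F 1 + F 2 + F 3 + F 4 :=
  Fin.sum_univ_five F

lemma coin5 [Fact (Nat.Prime 5)] (h : ZMod 5 → ZMod 5) : coin h = co5 (h 0) (h 1) (h 2) (h 3) (h 4) := by
  unfold coin co5
  rw [Finset.card_filter, ← Finset.univ_product_univ, Finset.sum_product]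
  simp only [sum5]
  simp only [eq_comm (a := h 1) (b := h 0), eq_comm (a := h 2) (b := h 0), eq_comm (a := h 3) (b := h 0),
    eq_comm (a := h 4) (b := h 0), eq_comm (a := h 2) (b := h 1), eq_comm (a := h 3) (b := h 1),
    eq_comm (a := h 4) (b := h 1), eq_comm (a := h 3) (b := h 2), eq_comm (a := h 4) (b := h 2),
    eq_comm (a := h 4) (b := h 3), if_true]
  ring

lemma lb_coin [Fact (Nat.Prime 5)] (h : ZMod 5 → ZMod 5) (h0 : ∑ y, h y = 0) : lb (∑ y, (h y) ^ 2) ≤ coin h := by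
  rw [coin5, sum5]
  rw [sum5] at h0
  exact lb_le _ _ _ _ _ h0

/-- for every pair `y ≠ y'` exactly one `t` gives a coincidence -/
lemma sum_t [Fact (Nat.Prime 5)] (h : ZMod 5 → ZMod 5) : ∑ t : ZMod 5, coin (fun y => h y + t * y) = 45 := by
  classical
  have h1 : ∑ t : ZMod 5, coin (fun y => h y + t * y) =
      ∑ q : ZMod 5 × ZMod 5, ((univ : Finset (ZMod 5)).filter fun t => h q.1 + t * q.1 = h q.2 + t * q.2).card := by
    unfold coin
    simp only [Finset.card_filter]
    rw [Finset.sum_comm]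
  have h2 : ∀ q : ZMod 5 × ZMod 5, ((univ : Finset (ZMod 5)).filter fun t => h q.1 + t * q.1 = h q.2 + t * q.2).card =
      if q.1 = q.2 then 5 else 1 := by
    intro q
    by_cases hq : q.1 = q.2
    · rw [if_pos hq, hq]; simp
    · rw [if_neg hq, Finset.card_eq_one]
      have hne : q.1 - q.2 ≠ 0 := sub_ne_zero.2 hq
      refine ⟨(h q.2 - h q.1) * (q.1 - q.2)⁻¹, ?_⟩
      ext t
      rw [Finset.mem_filter, Finset.mem_singleton]
      constructor
      · rintro ⟨_, ht⟩
        rw [eq_mul_inv_iff_mul_eq₀ hne]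
        linear_combination ht
      · intro ht
        refine ⟨Finset.mem_univ _, ?_⟩
        rw [eq_mul_inv_iff_mul_eq₀ hne] at ht
        linear_combination ht
  rw [h1, Finset.sum_congr rfl fun q _ => h2 q]
  decide +kernel

theorem fiv (hVAL : VAL) (hMOM : MOM) (hV : VAN) : FIV := by
  intro _ f hf
  classical
  have hval : ∀ t : ZMod 5, t ≠ 0 → (∀ x, ∀ j, j < (5 - 1) / 2 → ∑ y, (f y x + t * y) ^ j = 0) ∧
      (∀ x x', ∑ y, (f y x + t * y) ^ ((5 - 1) / 2) = ∑ y, (f y x' + t * y) ^ ((5 - 1) / 2)) := by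
    intro t ht
    refine hVAL 5 (by norm_num) f t fun c => ?_
    have h1 := hf 1 t c one_ne_zero ht
    simpa using h1
  obtain ⟨hm1, hm2⟩ := hMOM 5 (by norm_num) f hval
  have hs : ∀ x, ∑ y, f y x = 0 := by
    intro x
    have h1 := hm1 x 0 1 (by norm_num)
    simpa using h1
  have hα : ∀ x, ∑ y, y * f y x = ∑ y, y * f y 0 := by
    intro x
    have h1 := hm2 x 0 1 1 (by norm_num)
    simpa using h1
  have hβ : ∀ x, ∑ y, (f y x) ^ 2 = ∑ y, (f y 0) ^ 2 := by
    intro x
    have h1 := hm2 x 0 0 2 (by norm_num)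
    simpa using h1
  set α := ∑ y, y * f y 0 with hαd
  set β := ∑ y, (f y 0) ^ 2 with hβd
  by_contra hcon
  push Not at hcon
  obtain ⟨x0, hx0⟩ := hcon
  rw [hα] at hx0
  -- the second moment
  have hQ : ∀ x t, ∑ y, (f y x + t * y) ^ 2 = β + 2 * α * t := by
    intro x t
    have h1 : ∑ y, (f y x + t * y) ^ 2 = ∑ y, (f y x) ^ 2 + 2 * t * ∑ y, y * f y x + t ^ 2 * ∑ y : ZMod 5, y ^ 2 := by
      rw [Finset.mul_sum, Finset.mul_sum, ← Finset.sum_add_distrib, ← Finset.sum_add_distrib]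
      refine Finset.sum_congr rfl fun y _ => ?_
      ring
    have h2 : ∑ y : ZMod 5, y ^ 2 = 0 := d1
    rw [h1, h2, hα, hβ]; ring
  have hS : ∀ x t, ∑ y, (f y x + t * y) = 0 := by
    intro x t
    have h2 : ∑ y : ZMod 5, y = 0 := d2
    rw [Finset.sum_add_distrib, hs, ← Finset.mul_sum, h2]; simp
  have hle : ∀ x t, lb (β + 2 * α * t) ≤ coin (fun y => f y x + t * y) := by
    intro x t
    rw [← hQ x t]
    exact lb_coin _ (hS x t)
  have h2α : (2 : ZMod 5) * α ≠ 0 := mul_ne_zero d3 hx0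
  have hsum : ∑ t : ZMod 5, lb (β + 2 * α * t) = 45 := by
    have h1 : ∑ t : ZMod 5, lb (β + 2 * α * t) = ∑ s : ZMod 5, lb s := by
      refine Fintype.sum_bijective (fun t => β + 2 * α * t) ?_ _ _ (fun t => rfl)
      rw [Finite.injective_iff_bijective.symm]
      intro t t' htt
      exact mul_left_cancel₀ h2α (add_left_cancel htt)
    rw [h1]; decide +kernel
  have heq : ∀ x t, coin (fun y => f y x + t * y) = lb (β + 2 * α * t) := by
    intro x t
    have h1 : ∑ t : ZMod 5, lb (β + 2 * α * t) = ∑ t : ZMod 5, coin (fun y => f y x + t * y) := by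
      rw [hsum, sum_t]
    exact ((Finset.sum_eq_sum_iff_of_le fun t _ => hle x t).1 h1 t (Finset.mem_univ _)).symm
  -- a good t
  obtain ⟨t, ht0, ht⟩ : ∃ t : ZMod 5, t ≠ 0 ∧ lb (β + 2 * α * t) = 11 := by
    have h1 : ∀ s : ZMod 5, ∃ t, β + 2 * α * t = s := by
      intro s
      refine ⟨(s - β) * (2 * α)⁻¹, ?_⟩
      rw [mul_comm (2 * α), mul_assoc, inv_mul_cancel₀ h2α]; ring
    obtain ⟨t1, ht1⟩ := h1 2
    obtain ⟨t2, ht2⟩ := h1 3
    by_cases h3 : t1 = 0
    · refine ⟨t2, ?_, by rw [ht2]; exact d4⟩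
      rintro rfl
      rw [h3] at ht1
      rw [ht1] at ht2
      exact absurd ht2 d5
    · exact ⟨t1, h3, by rw [ht1]; exact d4'⟩
  have hcoin : ∀ x, coin (fun y => f y x + t * y) = 11 := fun x => by rw [heq, ht]
  -- Parseval
  have hW : ∀ k c : ZMod 5, W (fun y x => k * f y x) (k * t) c =
      ∑ x, (∑ y, e (k * (f y x + t * y))) * e (c * x) := by
    intro k c
    unfold W
    rw [Finset.sum_comm]
    refine Finset.sum_congr rfl fun x _ => ?_
    rw [Finset.sum_mul]
    refine Finset.sum_congr rfl fun y _ => ?_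
    rw [← e_add]; congr 1; ring
  have hP : ∀ k : ZMod 5, ∑ c, ‖W (fun y x => k * f y x) (k * t) c‖ ^ 2 =
      5 * ∑ x, ‖∑ y, e (k * (f y x + t * y))‖ ^ 2 := by
    intro k
    simp only [hW]
    have h1 := pars (fun x => ∑ y, e (k * (f y x + t * y)))
    rw [h1]; norm_num
  have htot : ∑ k : ZMod 5, ∑ c, ‖W (fun y x => k * f y x) (k * t) c‖ ^ 2 = 1375 := by
    simp only [hP]
    rw [← Finset.mul_sum, Finset.sum_comm]
    have h1 : ∀ x : ZMod 5, ∑ k : ZMod 5, ‖∑ y, e (k * (f y x + t * y))‖ ^ 2 = 55 := by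
      intro x
      have h2 := sum_coin (fun y => f y x + t * y)
      rw [hcoin x] at h2
      rw [h2]; norm_num
    rw [Finset.sum_congr rfl fun x _ => h1 x]
    simp
    norm_num
  have h0 : ∑ c, ‖W (fun y x => (0 : ZMod 5) * f y x) ((0 : ZMod 5) * t) c‖ ^ 2 = 625 := by
    rw [hP]
    simp only [zero_mul, e_zero]
    simp
    norm_num
  -- number of nonzero coefficients
  set w : ZMod 5 → ℕ := fun k => (univ.filter fun c => W (fun y x => k * f y x) (k * t) c ≠ 0).card with hw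
  have hwk : ∀ k : ZMod 5, k ≠ 0 → ∑ c, ‖W (fun y x => k * f y x) (k * t) c‖ ^ 2 = 125 * (w k : ℝ) := by
    intro k hk
    have h1 : ∀ c : ZMod 5, ‖W (fun y x => k * f y x) (k * t) c‖ ^ 2 =
        if W (fun y x => k * f y x) (k * t) c ≠ 0 then (125 : ℝ) else 0 := by
      intro c
      rcases hf k (k * t) c hk (mul_ne_zero hk ht0) with h2 | h2
      · rw [h2]; simp
      · have h3 : W (fun y x => k * f y x) (k * t) c ≠ 0 := by
          intro h4
          rw [h4, norm_zero] at h2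
          norm_num at h2
        rw [if_pos h3, h2]; norm_num
    rw [Finset.sum_congr rfl fun c _ => h1 c, ← Finset.sum_filter, Finset.sum_const, nsmul_eq_mul, mul_comm]
  have hweq : ∀ k : ZMod 5, k ≠ 0 → w k = w 1 := by
    intro k hk
    have hWW : ∀ k c : ZMod 5, W (fun y x => k * f y x) (k * t) (k * c) =
        ∑ q : ZMod 5 × ZMod 5, e (k * (f q.1 q.2 + t * q.1 + c * q.2)) := by
      intro k c
      unfold W
      rw [← Finset.univ_product_univ, Finset.sum_product]
      refine Finset.sum_congr rfl fun y _ => Finset.sum_congr rfl fun x _ => ?_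
      congr 1; ring
    symm
    refine Finset.card_bij (fun c _ => k * c) ?_ ?_ ?_
    · intro c hc
      rw [Finset.mem_filter] at hc ⊢
      refine ⟨Finset.mem_univ _, ?_⟩
      rw [hWW]
      intro h1
      rw [gal_iff hV _ k hk] at h1
      apply hc.2
      have h2 := hWW 1 c
      simp only [one_mul] at h2 ⊢
      rw [h2]; exact h1
    · intro c _ c' _ hcc
      exact mul_left_cancel₀ hk hcc
    · intro c hc
      rw [Finset.mem_filter] at hc
      refine ⟨k⁻¹ * c, ?_, mul_inv_cancel_left₀ hk c⟩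
      rw [Finset.mem_filter]
      refine ⟨Finset.mem_univ _, ?_⟩
      intro h1
      apply hc.2
      have h2 := hWW 1 (k⁻¹ * c)
      simp only [one_mul] at h1 h2
      rw [h1] at h2
      have h3 := hWW k (k⁻¹ * c)
      rw [mul_inv_cancel_left₀ hk] at h3
      rw [h3, gal_iff hV _ k hk]
      exact h2.symm
  rw [← Finset.add_sum_erase _ _ (Finset.mem_univ (0 : ZMod 5)), h0] at htot
  have h5 : ∑ k ∈ (univ : Finset (ZMod 5)).erase 0, ∑ c, ‖W (fun y x => k * f y x) (k * t) c‖ ^ 2 =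
      4 * (125 * (w 1 : ℝ)) := by
    rw [Finset.sum_congr rfl (g := fun _ => 125 * (w 1 : ℝ))]
    · rw [Finset.sum_const, Finset.card_erase_of_mem (Finset.mem_univ _), Finset.card_univ, ZMod.card]
      norm_num
    · intro k hk
      rw [hwk k (Finset.ne_of_mem_erase hk), hweq k (Finset.ne_of_mem_erase hk)]
  rw [h5] at htot
  have h6 : (500 * w 1 : ℕ) = 750 := by
    have h7 : (500 : ℝ) * (w 1 : ℝ) = 750 := by linarith
    exact_mod_cast h7
  omega

end Pool.Agent.H45.R3
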