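import Pool.Agent.H45.R3.Wal

/-!
# LDIR: functions whose Walsh transform lives on a line
-/

set_option autoImplicit false
set_option linter.unusedSectionVars false

open Finset

namespace Pool.Agent.H45.R3

section
variable {p : ℕ} [Fact p.Prime]

lemma e_inj {a b : ZMod p} (h : e a = e b) : a = b := ZMod.injective_stdAddChar h

lemma e_sum (a : ZMod p) : ∑ c : ZMod p, e (c * a) = if a = 0 then (p : ℂ) else 0 := by
  unfold e
  have h := AddChar.sum_mulShift (ψ := (ZMod.stdAddChar : AddChar (ZMod p) ℂ)) a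
    (ZMod.isPrimitive_stdAddChar p)
  rw [h, ZMod.card]
  split_ifs <;> simp

/-- Fourier inversion on the plane -/
lemma inversion (g : ZMod p → ZMod p → ZMod p) (y x : ZMod p) :
    ∑ t, ∑ c, W g t c * e (-(t * y) - c * x) = (p : ℂ) ^ 2 * e (g y x) := by
  have h1 : ∀ t c : ZMod p, W g t c * e (-(t * y) - c * x) =
      ∑ y', ∑ x', e (g y' x') * (e (t * (y' - y)) * e (c * (x' - x))) := by
    intro t c
    unfold W
    rw [Finset.sum_mul]
    refine Finset.sum_congr rfl fun y' _ => ?_
    rw [Finset.sum_mul]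
    refine Finset.sum_congr rfl fun x' _ => ?_
    rw [← e_add, ← e_add, ← e_add]
    congr 1
    ring
  have h2 : ∑ t, ∑ c, W g t c * e (-(t * y) - c * x) =
      ∑ y', ∑ x', e (g y' x') * ((∑ t, e (t * (y' - y))) * ∑ c, e (c * (x' - x))) := by
    have h3 : ∀ y' x' : ZMod p, e (g y' x') * ((∑ t, e (t * (y' - y))) * ∑ c, e (c * (x' - x))) =
        ∑ t, ∑ c, e (g y' x') * (e (t * (y' - y)) * e (c * (x' - x))) := by
      intro y' x'
      rw [Finset.sum_mul_sum, Finset.mul_sum]
      refine Finset.sum_congr rfl fun t _ => ?_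
      rw [Finset.mul_sum]
    simp only [h3, h1]
    rw [Finset.sum_congr rfl fun t _ => Finset.sum_comm, Finset.sum_comm]
    refine Finset.sum_congr rfl fun y' _ => ?_
    rw [Finset.sum_congr rfl fun t _ => Finset.sum_comm, Finset.sum_comm]
  rw [h2]
  have h4 : ∀ y' x' : ZMod p, e (g y' x') * ((∑ t, e (t * (y' - y))) * ∑ c, e (c * (x' - x))) =
      if y' = y then (if x' = x then (p : ℂ) ^ 2 * e (g y x) else 0) else 0 := by
    intro y' x'
    rw [e_sum, e_sum]
    by_cases hy : y' = y
    · subst hy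
      by_cases hx : x' = x
      · subst hx
        simp
        ring
      · rw [if_pos rfl, if_neg hx, if_neg (sub_ne_zero.2 hx)]
        simp
    · rw [if_neg hy, if_neg (sub_ne_zero.2 hy)]
      simp
  simp only [h4]
  simp

end

theorem ldir : LDIR := by
  intro p _ g T d hT hd hTd hW
  classical
  have hp : p.Prime := Fact.out
  obtain ⟨m0, hm0⟩ : T.Nonempty := by
    rw [← Finset.card_pos, hT]; exact hp.pos
  -- T is a line
  have hk : ∀ k : ℕ, (m0.1 + k * d.1, m0.2 + k * d.2) ∈ T := by
    intro k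
    induction k with
    | zero => simpa using hm0
    | succ k ih =>
      have h1 := hTd _ ih
      have h2 : ((m0.1 + k * d.1, m0.2 + k * d.2) : ZMod p × ZMod p) + d =
          (m0.1 + ((k + 1 : ℕ) : ZMod p) * d.1, m0.2 + ((k + 1 : ℕ) : ZMod p) * d.2) := by
        refine Prod.ext ?_ ?_
        · show m0.1 + k * d.1 + d.1 = _
          push_cast; ring
        · show m0.2 + k * d.2 + d.2 = _
          push_cast; ring
      rw [h2] at h1
      exact h1
  have hk' : ∀ k : ZMod p, (m0.1 + k * d.1, m0.2 + k * d.2) ∈ T := by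
    intro k
    have h1 := hk k.val
    rwa [ZMod.natCast_zmod_val] at h1
  have hTim : T = (univ : Finset (ZMod p)).image fun k => (m0.1 + k * d.1, m0.2 + k * d.2) := by
    symm
    refine Finset.eq_of_subset_of_card_le ?_ ?_
    · intro m hm
      rw [Finset.mem_image] at hm
      obtain ⟨k, _, rfl⟩ := hm
      exact hk' k
    · rw [hT, Finset.card_image_of_injective, Finset.card_univ, ZMod.card]
      intro k k' hkk
      rw [Prod.mk.injEq] at hkk
      by_cases h1 : d.1 = 0
      · have h2 : d.2 ≠ 0 := fun h => hd (Prod.ext h1 h)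
        exact mul_right_cancel₀ h2 (add_left_cancel hkk.2)
      · exact mul_right_cancel₀ h1 (add_left_cancel hkk.1)
  have hline : ∀ m ∈ T, m.1 * (-d.2) + m.2 * d.1 = m0.1 * (-d.2) + m0.2 * d.1 := by
    intro m hm
    rw [hTim, Finset.mem_image] at hm
    obtain ⟨k, _, rfl⟩ := hm
    show (m0.1 + k * d.1) * (-d.2) + (m0.2 + k * d.2) * d.1 = _
    ring
  refine ⟨-d.2, d.1, -(m0.1 * (-d.2) + m0.2 * d.1), ?_, ?_⟩
  · by_cases h1 : d.1 = 0
    · left
      intro h2
      exact hd (Prod.ext h1 (neg_eq_zero.1 h2))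
    · right; exact h1
  · intro y x
    apply e_inj
    have hp0 : (p : ℂ) ^ 2 ≠ 0 := pow_ne_zero _ (by exact_mod_cast hp.ne_zero)
    apply mul_left_cancel₀ hp0
    rw [← inversion, e_add, ← mul_assoc, ← inversion, Finset.sum_mul]
    refine Finset.sum_congr rfl fun t _ => ?_
    rw [Finset.sum_mul]
    refine Finset.sum_congr rfl fun c _ => ?_
    by_cases hw : W g t c = 0
    · rw [hw]; simp
    · have h1 := hline (t, c) (hW (t, c) hw)
      have h2 : t * (-d.2) + c * d.1 = m0.1 * (-d.2) + m0.2 * d.1 := h1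
      rw [mul_assoc, ← e_add]
      congr 2
      rw [← h2]
      ring

end Pool.Agent.H45.R3
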