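import Pool.Agent.H45.R3.Stmts

/-!
# MPD: the group ring modulo `p`
-/

set_option autoImplicit false
set_option linter.unusedSectionVars false

open Finset

namespace Pool.Agent.H45.R3

open Pool.Agent.H56.RDS

section
variable {p b : ℕ} [Fact p.Prime] {G : Type} [AddCommGroup G] [Fintype G] [DecidableEq G]
  {N : AddSubgroup G} {D : Finset G}

abbrev Ag (p : ℕ) (G : Type) [AddCommGroup G] := AddMonoidAlgebra (ZMod p) G

/-- group element -/
noncomputable def sg (p : ℕ) {G : Type} [AddCommGroup G] (g : G) : Ag p G := AddMonoidAlgebra.single g 1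

lemma sg_mul (g h : G) : sg p g * sg p h = sg p (g + h) := by
  unfold sg
  rw [AddMonoidAlgebra.single_mul_single, one_mul]

lemma sg_pow (g : G) (n : ℕ) : sg p g ^ n = sg p (n • g) := by
  unfold sg
  rw [AddMonoidAlgebra.single_pow, one_pow]

lemma coeff_sg (g h : G) : (sg p g).coeff h = if g = h then 1 else 0 := by
  unfold sg
  rw [AddMonoidAlgebra.coeff_single_apply]

lemma Rds.inj (h : Rds p b G N D) {d d' : G} (hd : d ∈ D) (hd' : d' ∈ D) (hN : d - d' ∈ N) : d = d' := by
  by_contra hne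
  have h1 := h.rep0 (d - d') hN (sub_ne_zero.2 hne)
  unfold rep at h1
  rw [Finset.card_eq_zero] at h1
  have h2 : (d, d') ∈ (D ×ˢ D).filter (fun x => x.1 - x.2 = d - d') := by
    rw [Finset.mem_filter, Finset.mem_product]
    exact ⟨⟨hd, hd'⟩, rfl⟩
  rw [h1] at h2
  exact absurd h2 (Finset.notMem_empty _)

lemma Rds.bij (h : Rds p b G N D) : Function.Bijective (fun q : D × N => ((q.1 : G) + (q.2 : G))) := by
  classical
  have hinj : Function.Injective (fun q : D × N => ((q.1 : G) + (q.2 : G))) := by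
    rintro ⟨⟨d, hd⟩, ⟨n, hn⟩⟩ ⟨⟨d', hd'⟩, ⟨n', hn'⟩⟩ hq
    have h1 : d + n = d' + n' := hq
    have h2 : d - d' = n' - n := by
      have : d = d' + n' - n := by rw [← h1]; abel
      rw [this]; abel
    have h3 : d = d' := h.inj hd hd' (by rw [h2]; exact N.sub_mem hn' hn)
    subst h3
    have h4 : n = n' := add_left_cancel h1
    subst h4
    rfl
  have hf : Fintype N := Fintype.ofFinite N
  rw [Fintype.bijective_iff_injective_and_card]
  refine ⟨hinj, ?_⟩
  rw [Fintype.card_prod, Fintype.card_coe, h.cardD, ← Nat.card_eq_fintype_card (α := N), h.cardN, h.cardG]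
  ring

end

theorem mpd : MPD := by
  intro p b _ G _ _ _ N D h hb g
  classical
  have hp : p.Prime := Fact.out
  have hp3 : 3 ≤ p := by
    have := hp.two_le
    have := h.p2
    omega
  have hchar : CharP (Ag p G) p := by
    refine charP_of_injective_ringHom (f := AddMonoidAlgebra.singleZeroRingHom) ?_ p
    intro a a' haa
    have h1 := congrArg (fun x : Ag p G => x.coeff 0) haa
    simpa using h1
  set A : Ag p G := ∑ d ∈ D, sg p d with hA
  set B : Ag p G := ∑ d ∈ D, sg p (-d) with hB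
  set T : Ag p G := ∑ x : G, sg p x with hT
  set TN : Ag p G := ∑ x ∈ univ.filter (· ∈ N), sg p x with hTN
  have hpb : ((p ^ b : ℕ) : Ag p G) = 0 := by
    rw [Nat.cast_pow, CharP.cast_eq_zero, zero_pow (by omega)]
  have h1 : ∀ d : G, sg p d * T = T := by
    intro d
    rw [hT, Finset.mul_sum]
    simp only [sg_mul]
    exact Fintype.sum_equiv (Equiv.addLeft d) _ _ (fun x => rfl)
  have hAT : A * T = 0 := by
    rw [hA, Finset.sum_mul]
    simp only [h1]
    rw [Finset.sum_const, h.cardD, nsmul_eq_mul, hpb, zero_mul]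
  have hATN : A * TN = T := by
    rw [hA, hTN, Finset.sum_mul_sum]
    simp only [sg_mul]
    rw [← Finset.sum_product', hT]
    refine Finset.sum_bij (fun q _ => q.1 + q.2) (fun _ _ => Finset.mem_univ _) ?_ ?_ (fun _ _ => rfl)
    · intro q hq q' hq' hqq
      rw [Finset.mem_product, Finset.mem_filter] at hq hq'
      have h2 := h.bij.1 (a₁ := (⟨q.1, hq.1⟩, ⟨q.2, hq.2.2⟩)) (a₂ := (⟨q'.1, hq'.1⟩, ⟨q'.2, hq'.2.2⟩)) hqq
      rw [Prod.mk.injEq] at h2
      exact Prod.ext (congrArg Subtype.val h2.1) (congrArg Subtype.val h2.2)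
    · intro x _
      obtain ⟨q, hq⟩ := h.bij.2 x
      refine ⟨((q.1 : G), (q.2 : G)), ?_, hq⟩
      rw [Finset.mem_product, Finset.mem_filter]
      exact ⟨q.1.2, Finset.mem_univ _, q.2.2⟩
  have hAB : A * B = T - TN := by
    rw [hA, hB, Finset.sum_mul_sum]
    simp only [sg_mul]
    rw [← Finset.sum_product']
    rw [← Finset.sum_fiberwise (D ×ˢ D) (fun x => x.1 - x.2) (fun x => sg p (x.1 + -x.2))]
    have h2 : ∀ x : G, ∑ q ∈ (D ×ˢ D).filter (fun q => q.1 - q.2 = x), sg p (q.1 + -q.2) =
        sg p x - (if x ∈ N then sg p x else 0) := by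
      intro x
      rw [Finset.sum_congr rfl (g := fun _ => sg p x) (fun q hq => by
        rw [← sub_eq_add_neg, (Finset.mem_filter.1 hq).2]), Finset.sum_const]
      by_cases hx : x ∈ N
      · rw [if_pos hx, sub_self]
        by_cases hx0 : x = 0
        · have h3 : ((D ×ˢ D).filter (fun q => q.1 - q.2 = x)).card = p ^ b := by
            rw [hx0]
            exact (rep_zero D).trans h.cardD
          rw [h3, nsmul_eq_mul, hpb, zero_mul]
        · have h3 : ((D ×ˢ D).filter (fun q => q.1 - q.2 = x)).card = 0 := h.rep0 x hx hx0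
          rw [h3, zero_nsmul]
      · have h3 : ((D ×ˢ D).filter (fun q => q.1 - q.2 = x)).card = 1 := h.rep1 x hx
        rw [if_neg hx, sub_zero, h3, one_nsmul]
    rw [Finset.sum_congr rfl (fun x _ => h2 x), Finset.sum_sub_distrib, ← Finset.sum_filter]
  have hzero : A ^ p * B = 0 := by
    obtain ⟨m, rfl⟩ : ∃ m, p = m + 3 := ⟨p - 3, by omega⟩
    have h2 : A ^ (m + 3) * B = A ^ (m + 1) * (A * (A * B)) := by ring
    rw [h2, hAB, mul_sub, hAT, hATN, zero_sub]
    have h3 : A ^ (m + 1) * -T = -(A ^ m * (A * T)) := by ring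
    rw [h3, hAT, mul_zero, neg_zero]
  have hpow : A ^ p = ∑ d ∈ D, sg p (p • d) := by
    rw [hA, sum_pow_char]
    exact Finset.sum_congr rfl fun d _ => sg_pow d p
  rw [hpow, hB, Finset.sum_mul_sum] at hzero
  simp only [sg_mul] at hzero
  rw [← Finset.sum_product'] at hzero
  have h2 := congrArg (fun x : Ag p G => x.coeff g) hzero
  simp only [AddMonoidAlgebra.coeff_sum, Finsupp.coe_finset_sum, Finset.sum_apply, coeff_sg] at h2
  rw [Finset.sum_boole] at h2
  have h3 : (((D ×ˢ D).filter fun q => p • q.1 - q.2 = g).card : ZMod p) = 0 := by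
    have h4 : ((D ×ˢ D).filter fun q => p • q.1 - q.2 = g) = (D ×ˢ D).filter fun q => p • q.1 + -q.2 = g := by
      refine Finset.filter_congr fun q _ => ?_
      rw [sub_eq_add_neg]
    rw [h4]
    exact h2
  exact (ZMod.natCast_eq_zero_iff _ _).1 h3

end Pool.Agent.H45.R3
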