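import Pool.Agent.H45.R3.Stmts

/-!
# Relative difference sets with `n = p ^ 3`: groups of order `p ^ 5`
-/

set_option autoImplicit false
set_option linter.unusedSectionVars false

open Finset

namespace Pool.Agent.H45.R3

open Pool.Agent.H56.RDS

section
variable {p : ℕ} [Fact p.Prime] {G : Type} [AddCommGroup G] [Fintype G] [DecidableEq G]
  {N : AddSubgroup G} {z : G} {D : Finset G}

lemma Rds5.addOrd (h : Rds5 p G N z D) : addOrderOf z = p :=
  addOrderOf_eq_prime h.pz h.z0

lemma Rds5.card_om (h : Rds5 p G N z D) : Nat.card (Om p G) = p ^ 4 := by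
  have hp : p.Prime := Fact.out
  let m : G →+ G := nsmulAddMonoidHom (α := G) p
  have h1 : m.ker = Om p G := by
    ext x
    rw [AddMonoidHom.mem_ker]
    exact Iff.rfl
  have h2 : m.range = AddSubgroup.zmultiples z := by
    ext x
    constructor
    · rintro ⟨g, rfl⟩
      obtain ⟨k, hk⟩ := h.mz g
      rw [AddSubgroup.mem_zmultiples_iff]
      exact ⟨k, by rw [natCast_zsmul]; exact hk.symm⟩
    · intro hx
      obtain ⟨k, rfl⟩ := AddSubgroup.mem_zmultiples_iff.1 hx
      obtain ⟨g, hg⟩ := h.gz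
      have h0 : z ∈ m.range := ⟨g, hg⟩
      exact AddSubgroup.zsmul_mem _ h0 k
  have h3 : Nat.card G = Nat.card (G ⧸ m.ker) * Nat.card m.ker := AddSubgroup.card_eq_card_quotient_mul_card_addSubgroup _
  have h4 : Nat.card (G ⧸ m.ker) = Nat.card m.range :=
    Nat.card_congr (QuotientAddGroup.quotientKerEquivRange m).toEquiv
  rw [h4, h2, Nat.card_zmultiples, h.addOrd, h1, Nat.card_eq_fintype_card, h.cardG] at h3
  have h5 : p * Nat.card (Om p G) = p * p ^ 4 := by rw [← h3]; ring
  exact Nat.eq_of_mul_eq_mul_left hp.pos h5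

lemma Rds5.le_om (h : Rds5 p G N z D) : N ≤ Om p G := fun x hx => h.expN x hx

/-- pairs of a family with a given difference -/
lemma card_le_rep {ι : Type*} (S : Finset ι) (a b : ι → G) (w : G) (ha : ∀ i ∈ S, a i ∈ D) (hb : ∀ i ∈ S, b i ∈ D)
    (hd : ∀ i ∈ S, a i - b i = w) (hinj : Set.InjOn b S) : S.card ≤ rep D w := by
  classical
  unfold rep
  refine Finset.card_le_card_of_injOn (fun i => (a i, b i)) ?_ ?_
  · intro i hi
    have hi' : i ∈ S := hi
    rw [Finset.mem_coe, Finset.mem_filter, Finset.mem_product]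
    exact ⟨⟨ha i hi', hb i hi'⟩, hd i hi'⟩
  · intro i hi j hj hij
    exact hinj hi hj (congrArg Prod.snd hij)

end

theorem rdsb_case1 (hC1 : C1) (hCOO : COO1) (hG : GRA) (hW : WAL) (p : ℕ) [Fact p.Prime] (G : Type) [AddCommGroup G]
    [Fintype G] [DecidableEq G] (N : AddSubgroup G) (z : G) (D : Finset G) (h : Rds5 p G N z D) (hz : z ∈ N) : False := by
  classical
  have hp : p.Prime := Fact.out
  have hzo : z ∈ Om p G := h.le_om hz
  have hcard : Fintype.card (Om p G) = p ^ 4 := by rw [← Nat.card_eq_fintype_card, h.card_om]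
  have hcN : Nat.card (N.addSubgroupOf (Om p G)) = p ^ 2 := by
    rw [← h.cardN]
    exact Nat.card_congr (AddSubgroup.addSubgroupOfEquivOfLe h.le_om).toEquiv
  obtain ⟨Φ, hΦz, hΦN⟩ := hCOO p (Om p G) (N.addSubgroupOf (Om p G)) ⟨z, hzo⟩ hcard
    (fun v => Subtype.ext v.2) hcN (fun hc => h.z0 (congrArg Subtype.val hc)) hz
  have hΦN' : ∀ v : Om p G, (v : G) ∈ N ↔ (Φ v).1 = (0, 0) := fun v => hΦN v
  obtain ⟨d, f, g, hpart⟩ := hG p G N z D h Φ hΦN' 0
  have hgood : ∀ k b t c : ZMod p, k ≠ 0 → Good (fun y x => k * (f y x + b * g y x)) t c := by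
    intro k b t c hk
    have h1 := hW p G N z D h Φ hΦN' _ d f g hpart t c k (k * b) (Or.inl hk) (by
      intro hz'
      rw [hΦz]
      simpa using hk)
    have h2 : (fun y x => k * (f y x + b * g y x)) = fun y x => k * f y x + k * b * g y x := by
      funext y x; ring
    rw [h2]
    exact h1
  obtain ⟨u, v, c1, c2, huv, hc⟩ := hC1 p h.p2 f g hgood
  set w : G := ((Φ.symm ((u, v), (c1, c2)) : Om p G) : G) with hw
  have hwN : w ∉ N := by
    rw [hw, hΦN', AddEquiv.apply_symm_apply]
    intro hc'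
    rw [Prod.mk.injEq] at hc'
    rcases huv with h1 | h1
    · exact h1 hc'.1
    · exact h1 hc'.2
  have hmem : ∀ q : ZMod p × ZMod p, d + ((Φ.symm ((q.1, q.2), (f q.1 q.2, g q.1 q.2)) : Om p G) : G) ∈ D := by
    intro q
    refine part_subset D p (0 • z) ?_
    rw [hpart]
    exact Finset.mem_image.2 ⟨q, Finset.mem_univ _, rfl⟩
  have h3 := card_le_rep (D := D) (Finset.univ : Finset (ZMod p × ZMod p))
    (fun q => d + ((Φ.symm ((q.1 + u, q.2 + v), (f (q.1 + u) (q.2 + v), g (q.1 + u) (q.2 + v))) : Om p G) : G))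
    (fun q => d + ((Φ.symm ((q.1, q.2), (f q.1 q.2, g q.1 q.2)) : Om p G) : G)) w
    (fun q _ => hmem (q.1 + u, q.2 + v)) (fun q _ => hmem q) (by
      intro q _
      simp only [(hc q.1 q.2).1, (hc q.1 q.2).2]
      rw [add_sub_add_left_eq_sub, ← AddSubgroup.coe_sub, ← map_sub, hw]
      congr 3
      simp only [Prod.mk_sub_mk, add_sub_cancel_left]) (by
      intro q _ q' _ hq
      have h4 := add_left_cancel hq
      have h5 := Φ.symm.injective (Subtype.ext h4)
      simp only [Prod.mk.injEq] at h5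
      exact Prod.ext h5.1.1 h5.1.2)
  rw [h.rep1 w hwN, Finset.card_univ, Fintype.card_prod, ZMod.card] at h3
  nlinarith [hp.two_le]

/-- two functions with few repeated differences which satisfy a linear relation -/
lemma count_line {p : ℕ} [Fact p.Prime] (f g : ZMod p → ZMod p → ZMod p) (hH : Hyp2 f g) (l l' : ZMod p)
    (hl : l ≠ 0 ∨ l' ≠ 0) (hc : ∀ y y' x, l * f y x + l' * g y x = l * f y' x + l' * g y' x) :
    p ≤ ((univ : Finset (ZMod p × ZMod p)).filter fun q => f (q.1 + 1) q.2 - f q.1 q.2 = 0 ∧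
      g (q.1 + 1) q.2 - g q.1 q.2 = 0).card := by
  classical
  have hp : p.Prime := Fact.out
  set L : Finset (ZMod p × ZMod p) := univ.filter fun r => l * r.1 + l' * r.2 = 0 with hL
  have hLc : L.card ≤ p := by
    have h1 : L.card ≤ (univ : Finset (ZMod p)).card := by
      rcases hl with h0 | h0
      · refine Finset.card_le_card_of_injOn (fun r => r.2) (fun _ _ => Finset.mem_coe.2 (Finset.mem_univ _)) ?_
        intro r hr r' hr' hrr
        have h2 : l * r.1 + l' * r.2 = 0 := (Finset.mem_filter.1 hr).2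
        have h3 : l * r'.1 + l' * r'.2 = 0 := (Finset.mem_filter.1 hr').2
        have h4 : r.2 = r'.2 := hrr
        refine Prod.ext ?_ h4
        have h5 : l * (r.1 - r'.1) = 0 := by
          rw [h4] at h2; linear_combination h2 - h3
        exact sub_eq_zero.1 ((mul_eq_zero.1 h5).resolve_left h0)
      · refine Finset.card_le_card_of_injOn (fun r => r.1) (fun _ _ => Finset.mem_coe.2 (Finset.mem_univ _)) ?_
        intro r hr r' hr' hrr
        have h2 : l * r.1 + l' * r.2 = 0 := (Finset.mem_filter.1 hr).2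
        have h3 : l * r'.1 + l' * r'.2 = 0 := (Finset.mem_filter.1 hr').2
        have h4 : r.1 = r'.1 := hrr
        refine Prod.ext h4 ?_
        have h5 : l' * (r.2 - r'.2) = 0 := by
          rw [h4] at h2; linear_combination h2 - h3
        exact sub_eq_zero.1 ((mul_eq_zero.1 h5).resolve_left h0)
    rwa [Finset.card_univ, ZMod.card] at h1
  have h0 : ((0 : ZMod p), (0 : ZMod p)) ∈ L := by
    rw [hL, Finset.mem_filter]; simp
  have hsum : ∑ r ∈ L, ((univ : Finset (ZMod p × ZMod p)).filter fun q => f (q.1 + 1) q.2 - f q.1 q.2 = r.1 ∧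
      g (q.1 + 1) q.2 - g q.1 q.2 = r.2).card = p * p := by
    have h2 : (univ : Finset (ZMod p × ZMod p)).card = ∑ r ∈ L, ((univ : Finset (ZMod p × ZMod p)).filter
        fun q => (f (q.1 + 1) q.2 - f q.1 q.2, g (q.1 + 1) q.2 - g q.1 q.2) = r).card := by
      refine Finset.card_eq_sum_card_fiberwise ?_
      intro q _
      rw [Finset.mem_coe, hL, Finset.mem_filter]
      refine ⟨Finset.mem_univ _, ?_⟩
      have h3 := hc (q.1 + 1) q.1 q.2
      show l * (f (q.1 + 1) q.2 - f q.1 q.2) + l' * (g (q.1 + 1) q.2 - g q.1 q.2) = 0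
      linear_combination h3
    rw [Finset.card_univ, Fintype.card_prod, ZMod.card] at h2
    rw [h2]
    refine Finset.sum_congr rfl fun r _ => ?_
    congr 1
    ext q
    simp only [Finset.mem_filter, Finset.mem_univ, true_and, Prod.ext_iff]
  rw [← Finset.add_sum_erase L _ h0] at hsum
  have h4 : ∑ r ∈ L.erase (0, 0), ((univ : Finset (ZMod p × ZMod p)).filter fun q => f (q.1 + 1) q.2 - f q.1 q.2 = r.1 ∧
      g (q.1 + 1) q.2 - g q.1 q.2 = r.2).card ≤ (L.erase (0, 0)).card * p := by
    refine (Finset.sum_le_card_nsmul _ _ p ?_).trans (by simp)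
    intro r _
    exact hH.2 1 r.1 r.2 one_ne_zero
  have h5 : (L.erase (0, 0)).card ≤ p - 1 := by
    rw [Finset.card_erase_of_mem h0]; omega
  have h6 : (L.erase (0, 0)).card * p ≤ (p - 1) * p := Nat.mul_le_mul_right _ h5
  have h7 : (p - 1) * p + p = p * p := by
    obtain ⟨k, hk⟩ : ∃ k, p = k + 1 := ⟨p - 1, by have := hp.two_le; omega⟩
    rw [hk]; simp; ring
  simp only at hsum
  omega

theorem rdsb_case2 (hC2 : C2) (hCOO : COO2) (hG : GRA) (hW : WAL) (p : ℕ) [Fact p.Prime] (G : Type) [AddCommGroup G]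
    [Fintype G] [DecidableEq G] (N : AddSubgroup G) (z : G) (D : Finset G) (h : Rds5 p G N z D) (hz : z ∉ N) : False := by
  classical
  have hp : p.Prime := Fact.out
  have hzo : z ∈ Om p G := h.pz
  have hcard : Fintype.card (Om p G) = p ^ 4 := by rw [← Nat.card_eq_fintype_card, h.card_om]
  have hcN : Nat.card (N.addSubgroupOf (Om p G)) = p ^ 2 := by
    rw [← h.cardN]
    exact Nat.card_congr (AddSubgroup.addSubgroupOfEquivOfLe h.le_om).toEquiv
  obtain ⟨Φ, hΦz, hΦN⟩ := hCOO p (Om p G) (N.addSubgroupOf (Om p G)) ⟨z, hzo⟩ hcard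
    (fun v => Subtype.ext v.2) hcN hz
  have hΦN' : ∀ v : Om p G, (v : G) ∈ N ↔ (Φ v).1 = (0, 0) := fun v => hΦN v
  have hkey : ∀ k : ℕ, p ≤ ((part D p (k • z) ×ˢ part D p (k • z)).filter fun q => q.1 - q.2 = z).card := by
    intro k
    obtain ⟨d, f, g, hpart⟩ := hG p G N z D h Φ hΦN' k
    have hmem : ∀ q : ZMod p × ZMod p,
        d + ((Φ.symm ((q.1, q.2), (f q.1 q.2, g q.1 q.2)) : Om p G) : G) ∈ part D p (k • z) := by
      intro q
      rw [hpart]
      exact Finset.mem_image.2 ⟨q, Finset.mem_univ _, rfl⟩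
    have hdiff : ∀ (s n m : ZMod p) (q : ZMod p × ZMod p), f (q.1 + s) q.2 - f q.1 q.2 = n →
        g (q.1 + s) q.2 - g q.1 q.2 = m →
        (d + ((Φ.symm ((q.1 + s, q.2), (f (q.1 + s) q.2, g (q.1 + s) q.2)) : Om p G) : G)) -
        (d + ((Φ.symm ((q.1, q.2), (f q.1 q.2, g q.1 q.2)) : Om p G) : G)) =
        ((Φ.symm ((s, 0), (n, m)) : Om p G) : G) := by
      intro s n m q hn hm
      rw [add_sub_add_left_eq_sub, ← AddSubgroup.coe_sub, ← map_sub]
      congr 3
      simp only [Prod.mk_sub_mk, add_sub_cancel_left, sub_self, hn, hm]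
    have hinj : ∀ q q' : ZMod p × ZMod p, d + ((Φ.symm ((q.1, q.2), (f q.1 q.2, g q.1 q.2)) : Om p G) : G) =
        d + ((Φ.symm ((q'.1, q'.2), (f q'.1 q'.2, g q'.1 q'.2)) : Om p G) : G) → q = q' := by
      intro q q' hq
      have h4 := add_left_cancel hq
      have h5 := Φ.symm.injective (Subtype.ext h4)
      simp only [Prod.mk.injEq] at h5
      exact Prod.ext h5.1.1 h5.1.2
    have hyp : Hyp2 f g := by
      refine ⟨?_, ?_⟩
      · intro l l' t c hl ht
        refine hW p G N z D h Φ hΦN' _ d f g hpart t c l l' hl ?_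
        intro hz'
        rw [hΦz]
        simpa using ht
      · intro s n m hs
        have hwN : ((Φ.symm ((s, 0), (n, m)) : Om p G) : G) ∉ N := by
          rw [hΦN', AddEquiv.apply_symm_apply]
          intro hc'
          rw [Prod.mk.injEq] at hc'
          exact hs hc'.1
        refine le_trans ?_ (h.rep1 _ hwN).le
        refine card_le_rep _
          (fun q => d + ((Φ.symm ((q.1 + s, q.2), (f (q.1 + s) q.2, g (q.1 + s) q.2)) : Om p G) : G))
          (fun q => d + ((Φ.symm ((q.1, q.2), (f q.1 q.2, g q.1 q.2)) : Om p G) : G)) _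
          (fun q _ => part_subset D p _ (hmem (q.1 + s, q.2))) (fun q _ => part_subset D p _ (hmem q)) ?_ ?_
        · intro q hq
          rw [Finset.mem_filter] at hq
          exact hdiff s n m q hq.2.1 hq.2.2
        · intro q _ q' _ hq
          exact hinj q q' hq
    obtain ⟨l, l', hl, hc⟩ := hC2 p h.p2 f g hyp
    refine (count_line f g hyp l l' hl hc).trans ?_
    refine Finset.card_le_card_of_injOn
      (fun q => (d + ((Φ.symm ((q.1 + 1, q.2), (f (q.1 + 1) q.2, g (q.1 + 1) q.2)) : Om p G) : G),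
        d + ((Φ.symm ((q.1, q.2), (f q.1 q.2, g q.1 q.2)) : Om p G) : G))) ?_ ?_
    · intro q hq
      have hq' := (Finset.mem_filter.1 hq).2
      rw [Finset.mem_coe, Finset.mem_filter, Finset.mem_product]
      refine ⟨⟨hmem (q.1 + 1, q.2), hmem q⟩, ?_⟩
      show _ - _ = z
      rw [hdiff 1 0 0 q hq'.1 hq'.2]
      have h6 : (⟨z, hzo⟩ : Om p G) = Φ.symm ((1, 0), (0, 0)) := by rw [← hΦz, AddEquiv.symm_apply_apply]
      rw [← h6]
    · intro q _ q' _ hq
      exact hinj q q' (congrArg Prod.snd hq)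
  have hrep : rep D z = p := h.rep1 z hz
  have hge : p * p ≤ rep D z := by
    have h1 : ∑ k ∈ Finset.range p, ((part D p (k • z) ×ˢ part D p (k • z)).filter fun q => q.1 - q.2 = z).card ≤
        rep D z := by
      unfold rep
      rw [← Finset.card_biUnion]
      · refine Finset.card_le_card ?_
        intro q hq
        rw [Finset.mem_biUnion] at hq
        obtain ⟨k, _, hk⟩ := hq
        rw [Finset.mem_filter, Finset.mem_product] at hk ⊢
        exact ⟨⟨part_subset D p _ hk.1.1, part_subset D p _ hk.1.2⟩, hk.2⟩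
      · intro k hk k' hk' hkk
        rw [Function.onFun, Finset.disjoint_left]
        intro q hq hq'
        rw [Finset.mem_filter, Finset.mem_product] at hq hq'
        have h2 : p • q.1 = k • z := (Finset.mem_filter.1 hq.1.1).2
        have h3 : p • q.1 = k' • z := (Finset.mem_filter.1 hq'.1.1).2
        rw [h2] at h3
        rw [nsmul_eq_nsmul_iff_modEq, h.addOrd] at h3
        have h4 : k < p := Finset.mem_range.1 hk
        have h5 : k' < p := Finset.mem_range.1 hk'
        exact hkk (Nat.ModEq.eq_of_lt_of_lt h3 h4 h5)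
    have h2 : p * p ≤ ∑ k ∈ Finset.range p,
        ((part D p (k • z) ×ˢ part D p (k • z)).filter fun q => q.1 - q.2 = z).card := by
      have h3 := Finset.card_nsmul_le_sum (Finset.range p)
        (fun k => ((part D p (k • z) ×ˢ part D p (k • z)).filter fun q => q.1 - q.2 = z).card) p (fun k _ => hkey k)
      simpa using h3
    exact h2.trans h1
  rw [hrep] at hge
  nlinarith [hp.two_le]

theorem rdsb (hC1 : C1) (hC2 : C2) (hCOO1 : COO1) (hCOO2 : COO2) (hG : GRA) (hW : WAL) : RDSB := by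
  intro p _ G _ _ _ N z D h
  by_cases hz : z ∈ N
  · exact rdsb_case1 hC1 hCOO1 hG hW p G N z D h hz
  · exact rdsb_case2 hC2 hCOO2 hG hW p G N z D h hz

end Pool.Agent.H45.R3
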