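import Pool.Agent.H45.R3.Stmts

/-!
# RNK and SQM: rank bound
-/

set_option autoImplicit false
set_option linter.unusedSectionVars false

open Finset

namespace Pool.Agent.H45.R3

open Pool.Agent.H56.RDS

/-- sum of the numbers of representations over a set of differences -/
lemma sum_rep_filter {G : Type} [AddCommGroup G] [Fintype G] [DecidableEq G] (D : Finset G) (P : G → Prop)
    [DecidablePred P] : ∑ g ∈ univ.filter P, rep D g = ((D ×ˢ D).filter fun q => P (q.1 - q.2)).card := by
  rw [Finset.card_eq_sum_card_fiberwise (f := fun q : G × G => q.1 - q.2) (t := univ.filter P)]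
  · refine Finset.sum_congr rfl fun g hg => ?_
    unfold rep
    rw [Finset.filter_filter]
    congr 1
    ext q
    simp only [Finset.mem_filter, Finset.mem_product]
    constructor
    · rintro ⟨h1, h2⟩
      exact ⟨h1, by rw [h2]; exact (Finset.mem_filter.1 hg).2, h2⟩
    · rintro ⟨h1, _, h2⟩
      exact ⟨h1, h2⟩
  · intro q hq
    rw [Finset.mem_coe, Finset.mem_filter] at hq ⊢
    exact ⟨Finset.mem_univ _, hq.2⟩

theorem sqm : SQM := by
  intro p b _ G _ _ _ N D h hb
  classical
  have hp : p.Prime := Fact.out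
  -- the quadruples
  have h1 : ∑ g : G, (((D ×ˢ D).filter fun q => p • q.1 - q.2 = g).card) ^ 2 =
      ∑ q ∈ D ×ˢ D, rep D (p • (q.1 - q.2)) := by
    have h2 : ∀ g : G, (((D ×ˢ D).filter fun q => p • q.1 - q.2 = g).card) ^ 2 =
        (((D ×ˢ D) ×ˢ (D ×ˢ D)).filter fun r => p • r.1.1 - r.1.2 = g ∧ p • r.2.1 - r.2.2 = g).card := by
      intro g
      rw [pow_two, ← Finset.card_product]
      congr 1
      ext r
      simp only [Finset.mem_filter, Finset.mem_product]
      tauto
    have h3 : ∑ g : G, (((D ×ˢ D) ×ˢ (D ×ˢ D)).filter fun r => p • r.1.1 - r.1.2 = g ∧ p • r.2.1 - r.2.2 = g).card =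
        (((D ×ˢ D) ×ˢ (D ×ˢ D)).filter fun r => p • r.1.1 - r.1.2 = p • r.2.1 - r.2.2).card := by
      rw [Finset.card_eq_sum_card_fiberwise (f := fun r : (G × G) × (G × G) => p • r.1.1 - r.1.2) (t := univ)]
      · refine Finset.sum_congr rfl fun g _ => ?_
        rw [Finset.filter_filter]
        congr 1
        ext r
        simp only [Finset.mem_filter, Finset.mem_product]
        constructor
        · rintro ⟨h4, h5, h6⟩
          exact ⟨h4, by rw [h5, h6], h5⟩
        · rintro ⟨h4, h5, h6⟩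
          exact ⟨h4, h6, by rw [← h5, h6]⟩
      · intro r _
        exact Finset.mem_coe.2 (Finset.mem_univ _)
    rw [Finset.sum_congr rfl fun g _ => h2 g, h3]
    rw [Finset.card_eq_sum_card_fiberwise (f := fun r : (G × G) × (G × G) => (r.1.1, r.2.1)) (t := D ×ˢ D)]
    · refine Finset.sum_congr rfl fun q hq => ?_
      unfold rep
      rw [Finset.mem_product] at hq
      refine Finset.card_bij (fun r _ => (r.1.2, r.2.2)) ?_ ?_ ?_
      · intro r hr
        simp only [Finset.mem_filter, Finset.mem_product] at hr ⊢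
        obtain ⟨⟨⟨⟨h5, h6⟩, h7, h8⟩, h9⟩, h10⟩ := hr
        refine ⟨⟨h6, h8⟩, ?_⟩
        have h11 : r.1.1 = q.1 := by rw [← h10]
        have h12 : r.2.1 = q.2 := by rw [← h10]
        rw [← h11, ← h12, nsmul_sub]
        have h13 : p • r.1.1 = p • r.2.1 - r.2.2 + r.1.2 := by rw [← h9]; abel
        rw [h13]; abel
      · intro r hr r' hr' hrr
        simp only [Finset.mem_filter] at hr hr'
        have h10 := hr.2.trans hr'.2.symm
        have h11 : r.1.1 = r'.1.1 := (Prod.mk.inj h10).1
        have h12 : r.2.1 = r'.2.1 := (Prod.mk.inj h10).2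
        have h13 : r.1.2 = r'.1.2 := (Prod.mk.inj hrr).1
        have h14 : r.2.2 = r'.2.2 := (Prod.mk.inj hrr).2
        exact Prod.ext (Prod.ext h11 h13) (Prod.ext h12 h14)
      · intro s hs
        simp only [Finset.mem_filter, Finset.mem_product] at hs
        refine ⟨((q.1, s.1), (q.2, s.2)), ?_, rfl⟩
        simp only [Finset.mem_filter, Finset.mem_product]
        refine ⟨⟨⟨⟨hq.1, hs.1.1⟩, hq.2, hs.1.2⟩, ?_⟩, trivial⟩
        have h13 : s.1 = p • (q.1 - q.2) + s.2 := by rw [← hs.2]; abel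
        rw [h13, nsmul_sub]; abel
    · intro r hr
      rw [Finset.mem_coe, Finset.mem_filter, Finset.mem_product, Finset.mem_product, Finset.mem_product] at hr
      rw [Finset.mem_coe, Finset.mem_product]
      exact ⟨hr.1.1.1, hr.1.2.1⟩
  rw [h1]
  -- split according to p • (d - d')
  set S0 := (D ×ˢ D).filter fun q => p • (q.1 - q.2) = 0 with hS0
  set S1 := (D ×ˢ D).filter fun q => p • (q.1 - q.2) ∈ N with hS1
  have h2 : ∑ q ∈ D ×ˢ D, rep D (p • (q.1 - q.2)) ≤ p ^ b * S0.card + (p ^ (2 * b) - S1.card) := by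
    have h3 : ∀ q ∈ D ×ˢ D, rep D (p • (q.1 - q.2)) ≤
        (if p • (q.1 - q.2) = 0 then p ^ b else 0) + (if p • (q.1 - q.2) ∈ N then 0 else 1) := by
      intro q _
      by_cases h0 : p • (q.1 - q.2) = 0
      · rw [if_pos h0, h0, rep_zero, h.cardD]; simp
      · rw [if_neg h0]
        by_cases h4 : p • (q.1 - q.2) ∈ N
        · rw [if_pos h4, h.rep0 _ h4 h0]
        · rw [if_neg h4, h.rep1 _ h4]
    refine (Finset.sum_le_sum h3).trans ?_
    rw [Finset.sum_add_distrib]
    have h5 : ∑ q ∈ D ×ˢ D, (if p • (q.1 - q.2) = 0 then p ^ b else 0) = p ^ b * S0.card := by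
      rw [← Finset.sum_filter, Finset.sum_const, smul_eq_mul, mul_comm]
    have h6 : ∑ q ∈ D ×ˢ D, (if p • (q.1 - q.2) ∈ N then 0 else 1) = p ^ (2 * b) - S1.card := by
      have h7 : ∑ q ∈ D ×ˢ D, (if p • (q.1 - q.2) ∈ N then 0 else 1) + S1.card = p ^ (2 * b) := by
        rw [hS1, Finset.card_filter, ← Finset.sum_add_distrib]
        rw [Finset.sum_congr rfl (g := fun _ => 1)]
        · rw [Finset.sum_const, Finset.card_product, h.cardD, smul_eq_mul, mul_one]; ring
        · intro q _
          split_ifs <;> rfl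
      omega
    rw [h5, h6]
  -- the sizes
  have hcOm : ((univ : Finset G).filter fun g => p • g = 0).card = Nat.card (Om p G) := by
    rw [Nat.card_eq_fintype_card, Fintype.card_subtype]
    exact congrArg Finset.card (Finset.filter_congr fun g _ => Iff.rfl)
  have h3 : S0.card ≤ p ^ b + Nat.card (Om p G) - 1 := by
    have h4 := sum_rep_filter D (fun g => p • g = 0)
    rw [← hS0] at h4
    rw [← h4]
    have h5 : ∀ g ∈ (univ : Finset G).filter fun g => p • g = 0, g ≠ 0 → rep D g ≤ 1 := by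
      intro g _ hg0
      by_cases hg : g ∈ N
      · rw [h.rep0 g hg hg0]; exact zero_le_one
      · rw [h.rep1 g hg]
    have h0 : (0 : G) ∈ (univ : Finset G).filter fun g => p • g = 0 := by simp
    rw [← Finset.add_sum_erase _ _ h0, rep_zero, h.cardD]
    have h6 : ∑ g ∈ ((univ : Finset G).filter fun g => p • g = 0).erase 0, rep D g ≤
        (((univ : Finset G).filter fun g => p • g = 0).erase 0).card := by
      refine (Finset.sum_le_card_nsmul _ _ 1 ?_).trans (by simp)
      intro g hg
      exact h5 g (Finset.mem_of_mem_erase hg) (Finset.ne_of_mem_erase hg)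
    rw [Finset.card_erase_of_mem h0, hcOm] at h6
    have h7 : 1 ≤ Nat.card (Om p G) := Nat.card_pos
    omega
  have h4 : p ^ b ≤ S1.card := by
    have h5 := sum_rep_filter D (fun g => p • g ∈ N)
    rw [← hS1] at h5
    rw [← h5]
    have h0 : (0 : G) ∈ (univ : Finset G).filter fun g => p • g ∈ N := by simp
    rw [← Finset.add_sum_erase _ _ h0, rep_zero, h.cardD]
    omega
  have h5 : p ^ b * S0.card ≤ p ^ b * (Nat.card (Om p G) + p ^ b - 1) := by
    refine Nat.mul_le_mul_left _ ?_
    omega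
  have h6 : S1.card ≤ p ^ (2 * b) := by
    refine (Finset.card_le_card (Finset.filter_subset _ _)).trans ?_
    rw [Finset.card_product, h.cardD, two_mul, pow_add]
  omega

theorem rnk (hM : MPD) (hS : SQM) : RNK := by
  intro p b _ G _ _ _ N D h hb
  classical
  have hp : p.Prime := Fact.out
  have hp3 : 3 ≤ p := by
    have := hp.two_le
    have := h.p2
    omega
  have h1 := hM p b G N D h hb
  have h2 := hS p b G N D h hb
  have h3 : ∑ g : G, ((D ×ˢ D).filter fun q => p • q.1 - q.2 = g).card = p ^ (2 * b) := by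
    have h4 : (D ×ˢ D).card = ∑ g : G, ((D ×ˢ D).filter fun q => p • q.1 - q.2 = g).card :=
      Finset.card_eq_sum_card_fiberwise (fun _ _ => Finset.mem_coe.2 (Finset.mem_univ _))
    rw [← h4, Finset.card_product, h.cardD]; ring
  have h4 : p * p ^ (2 * b) ≤ ∑ g : G, (((D ×ˢ D).filter fun q => p • q.1 - q.2 = g).card) ^ 2 := by
    rw [← h3, Finset.mul_sum]
    refine Finset.sum_le_sum fun g _ => ?_
    rcases Nat.eq_zero_or_pos ((D ×ˢ D).filter fun q => p • q.1 - q.2 = g).card with h5 | h5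
    · rw [h5]; simp
    · rw [pow_two]
      exact Nat.mul_le_mul_right _ (Nat.le_of_dvd h5 (h1 g))
  by_contra hcon
  have h5 : Nat.card (Om p G) ≤ p ^ b := not_lt.1 hcon
  have h6 : p ^ (2 * b) = p ^ b * p ^ b := by rw [two_mul, pow_add]
  have h7 : 1 ≤ p ^ b := Nat.one_le_pow _ _ hp.pos
  have h8 : p ^ b * (Nat.card (Om p G) + p ^ b - 1) ≤ p ^ b * (2 * p ^ b - 1) :=
    Nat.mul_le_mul_left _ (by omega)
  have h9 : p ^ b * (2 * p ^ b - 1) = 2 * (p ^ b * p ^ b) - p ^ b := by
    rw [Nat.mul_sub, mul_one]; congr 1; ring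
  have h10 : p ^ b ≤ p ^ b * p ^ b := Nat.le_mul_of_pos_left _ (by omega)
  rw [h6] at h2 h4
  have h11 : 3 * (p ^ b * p ^ b) ≤ p * (p ^ b * p ^ b) := Nat.mul_le_mul_right _ hp3
  omega

end Pool.Agent.H45.R3
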