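import Pool.Agent.H45.R3.Mpd
import Pool.Agent.H45.R3.Rnk

/-!
# RED: reduction to groups of order `p ^ 5`
-/

set_option autoImplicit false
set_option linter.unusedSectionVars false

open Finset

namespace Pool.Agent.H45.R3

open Pool.Agent.H56.RDS

/-- order of the image of a subgroup -/
lemma card_map_mul {G H : Type} [AddCommGroup G] [AddCommGroup H] [Finite G] (f : G →+ H) (N : AddSubgroup G) :
    Nat.card N = Nat.card (N.map f) * Nat.card (N ⊓ f.ker : AddSubgroup G) := by
  let r : N →+ H := f.comp N.subtype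
  have h1 : Nat.card N = Nat.card (N ⧸ r.ker) * Nat.card r.ker :=
    AddSubgroup.card_eq_card_quotient_mul_card_addSubgroup _
  have h2 : Nat.card (N ⧸ r.ker) = Nat.card r.range :=
    Nat.card_congr (QuotientAddGroup.quotientKerEquivRange r).toEquiv
  have h3 : r.range = N.map f := by
    ext x
    simp only [AddMonoidHom.mem_range, AddSubgroup.mem_map]
    constructor
    · rintro ⟨n, hn⟩
      exact ⟨n.1, n.2, hn⟩
    · rintro ⟨n, hn, hx⟩
      exact ⟨⟨n, hn⟩, hx⟩
  have h4 : Nat.card r.ker = Nat.card (N ⊓ f.ker : AddSubgroup G) := by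
    refine Nat.card_congr
      { toFun := fun x => ⟨x.1.1, x.1.2, x.2⟩
        invFun := fun x => ⟨⟨x.1, x.2.1⟩, x.2.2⟩
        left_inv := fun _ => rfl
        right_inv := fun _ => rfl }
  rw [h1, h2, h3, h4]

section
variable {p : ℕ} [Fact p.Prime] {G : Type} [AddCommGroup G] [Fintype G] [DecidableEq G]
  {N : AddSubgroup G} {D : Finset G}

lemma exists_U (h : Rds p 3 G N D) (hOm : Nat.card (Om p G) = p ^ 4) (hexp : ∀ g : G, p ^ 2 • g = 0) :
    ∃ U : AddSubgroup G, Nat.card U = p ∧ U ≤ N ∧ (∀ n ∈ N, p • n ∈ U) ∧ (∀ u ∈ U, ∃ g : G, p • g = u) ∧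
      Nat.card (nsmulAddMonoidHom (α := G) p).range = p ^ 2 := by
  classical
  have hp : p.Prime := Fact.out
  have hexp' : ∀ g : G, p • (p • g) = 0 := by
    intro g; rw [← mul_nsmul', ← pow_two, hexp]
  set m : G →+ G := nsmulAddMonoidHom (α := G) p with hm
  have hker : m.ker = Om p G := by
    ext x
    rw [AddMonoidHom.mem_ker]
    exact Iff.rfl
  have hP : Nat.card m.range = p ^ 2 := by
    have h1 := card_map_mul m (⊤ : AddSubgroup G)
    rw [top_inf_eq, hker, hOm, ← AddMonoidHom.range_eq_map] at h1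
    have h2 : Nat.card (⊤ : AddSubgroup G) = p ^ 6 := by
      rw [AddSubgroup.card_top, Nat.card_eq_fintype_card, h.cardG]
    rw [h2] at h1
    have h3 : p ^ 4 * Nat.card m.range = p ^ 4 * p ^ 2 := by rw [mul_comm, ← h1]; ring
    exact Nat.eq_of_mul_eq_mul_left (pow_pos hp.pos 4) h3
  have hpN : ∀ n ∈ N, p • n ∈ N := fun n hn => N.nsmul_mem hn p
  by_cases hbot : N.map m = ⊥
  · -- an element of `N ⊓ P`
    have h1 : ∃ u : G, u ≠ 0 ∧ u ∈ N ∧ u ∈ m.range := by
      by_contra hcon
      push Not at hcon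
      have hinj : Function.Injective (fun q : N × m.range => (⟨(q.1 : G) + (q.2 : G), by
          show p • ((q.1 : G) + (q.2 : G)) = 0
          obtain ⟨g, hg⟩ := q.2.2
          have h2 : p • (q.1 : G) ∈ N.map m := ⟨q.1, q.1.2, rfl⟩
          rw [hbot, AddSubgroup.mem_bot] at h2
          rw [nsmul_add, h2, ← hg, zero_add]
          exact hexp' g⟩ : Om p G)) := by
        rintro ⟨n, q⟩ ⟨n', q'⟩ hq
        have h2 : (n : G) + (q : G) = (n' : G) + (q' : G) := congrArg Subtype.val hq
        have h3 : (n : G) - n' = q' - q := by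
          have : (n : G) = n' + q' - q := by rw [← h2]; abel
          rw [this]; abel
        have h4 : (n : G) - n' = 0 := by
          by_contra hne
          exact hcon _ hne (N.sub_mem n.2 n'.2) (by rw [h3]; exact m.range.sub_mem q'.2 q.2)
        have h5 : (n : G) = n' := sub_eq_zero.1 h4
        have h6 : (q : G) = q' := by
          rw [h5] at h2
          exact add_left_cancel h2
        exact Prod.ext (Subtype.ext h5) (Subtype.ext h6)
      have h2 := Nat.card_le_card_of_injective _ hinj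
      rw [Nat.card_prod, h.cardN, hP, hOm, ← pow_add] at h2
      have h3 : p ^ 4 < p ^ (3 + 2) := Nat.pow_lt_pow_right hp.one_lt (by norm_num)
      omega
    obtain ⟨u, hu0, huN, huP⟩ := h1
    have hpu : p • u = 0 := by
      obtain ⟨g, hg⟩ := huP
      rw [← hg]
      exact hexp' g
    refine ⟨AddSubgroup.zmultiples u, ?_, ?_, ?_, ?_, hP⟩
    · rw [Nat.card_zmultiples]
      exact addOrderOf_eq_prime hpu hu0
    · exact AddSubgroup.zmultiples_le_of_mem huN
    · intro n hn
      have h2 : p • n ∈ N.map m := ⟨n, hn, rfl⟩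
      rw [hbot, AddSubgroup.mem_bot] at h2
      rw [h2]
      exact AddSubgroup.zero_mem _
    · intro x hx
      obtain ⟨k, rfl⟩ := AddSubgroup.mem_zmultiples_iff.1 hx
      obtain ⟨g, hg⟩ := m.range.zsmul_mem huP k
      exact ⟨g, hg⟩
  · refine ⟨N.map m, ?_, ?_, ?_, ?_, hP⟩
    · have h1 := card_map_mul m N
      rw [h.cardN] at h1
      have hle : Nat.card (N.map m) ≤ Nat.card (N ⊓ m.ker : AddSubgroup G) := by
        refine AddSubgroup.card_le_of_le ?_
        rintro x ⟨n, hn, rfl⟩
        refine ⟨hpN n hn, ?_⟩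
        exact hexp' n
      have hdvd : Nat.card (N.map m) ∣ p ^ 3 := Dvd.intro _ h1.symm
      obtain ⟨i, hi, hi'⟩ := (Nat.dvd_prime_pow hp).1 hdvd
      have hdvd' : Nat.card (N ⊓ m.ker : AddSubgroup G) ∣ p ^ 3 := Dvd.intro_left _ h1.symm
      obtain ⟨j, hj, hj'⟩ := (Nat.dvd_prime_pow hp).1 hdvd'
      rw [hi', hj'] at h1 hle
      rw [← pow_add] at h1
      have h2 : 3 = i + j := Nat.pow_right_injective hp.two_le h1
      have h3 : i ≤ j := (Nat.pow_le_pow_iff_right hp.one_lt).1 hle
      have h4 : i ≠ 0 := by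
        rintro rfl
        rw [pow_zero] at hi'
        exact hbot (AddSubgroup.card_eq_one.mp hi')
      have h5 : i = 1 := by omega
      rw [hi', h5, pow_one]
    · rintro x ⟨n, hn, rfl⟩
      exact hpN n hn
    · intro n hn
      exact ⟨n, hn, rfl⟩
    · rintro x ⟨n, hn, rfl⟩
      exact ⟨n, rfl⟩

end

theorem red : RED := by
  intro p _ G _ _ _ N D h hOm hexp
  classical
  have hp : p.Prime := Fact.out
  obtain ⟨U, hU, hUN, hpU, hUP, hP⟩ := exists_U h hOm hexp
  set m : G →+ G := nsmulAddMonoidHom (α := G) p with hm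
  have hexp' : ∀ g : G, p • (p • g) = 0 := by
    intro g; rw [← mul_nsmul', ← pow_two, hexp]
  let π : G →+ G ⧸ U := QuotientAddGroup.mk' U
  have hπ : ∀ x : G, π x = 0 ↔ x ∈ U := fun x => QuotientAddGroup.eq_zero_iff x
  have hπ' : ∀ x y : G, π x = π y ↔ x - y ∈ U := by
    intro x y
    rw [← hπ, map_sub, sub_eq_zero]
  have hπs : Function.Surjective π := QuotientAddGroup.mk'_surjective U
  have hker : π.ker = U := QuotientAddGroup.ker_mk' U
  -- the element z
  have hUP' : U ≤ m.range := by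
    intro u hu
    obtain ⟨g, hg⟩ := hUP u hu
    exact ⟨g, hg⟩
  obtain ⟨z0, hz0P, hz0U⟩ : ∃ z0 ∈ m.range, z0 ∉ U := by
    by_contra hcon
    push Not at hcon
    have h1 : Nat.card m.range ≤ Nat.card U := AddSubgroup.card_le_of_le hcon
    rw [hP, hU] at h1
    nlinarith [hp.two_le]
  obtain ⟨g0, hg0⟩ := hz0P
  have hg0' : p • g0 = z0 := hg0
  have hF : Fintype (G ⧸ U) := Fintype.ofFinite _
  have hz : π z0 ≠ 0 := fun h1 => hz0U ((hπ z0).1 h1)
  have hpz : p • π z0 = 0 := by
    rw [← map_nsmul, ← hg0', hexp', map_zero]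
  have hcQ : Nat.card (G ⧸ U) = p ^ 5 := by
    have h1 : Nat.card G = Nat.card (G ⧸ U) * Nat.card U := AddSubgroup.card_eq_card_quotient_mul_card_addSubgroup _
    rw [Nat.card_eq_fintype_card (α := G), h.cardG, hU] at h1
    have h2 : p * Nat.card (G ⧸ U) = p * p ^ 5 := by rw [mul_comm, ← h1]; ring
    exact Nat.eq_of_mul_eq_mul_left hp.pos h2
  have hcN : Nat.card (N.map π) = p ^ 2 := by
    have h1 := card_map_mul π N
    rw [hker, inf_eq_right.2 hUN, h.cardN, hU] at h1
    have h2 : p * Nat.card (N.map π) = p * p ^ 2 := by rw [mul_comm, ← h1]; ring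
    exact Nat.eq_of_mul_eq_mul_left hp.pos h2
  have hcP : Nat.card (m.range.map π) = p := by
    have h1 := card_map_mul π m.range
    rw [hker, inf_eq_right.2 hUP', hP, hU] at h1
    have h2 : p * Nat.card (m.range.map π) = p * p := by rw [mul_comm, ← h1]; ring
    exact Nat.eq_of_mul_eq_mul_left hp.pos h2
  have hzm : AddSubgroup.zmultiples (π z0) = m.range.map π := by
    refine AddSubgroup.eq_of_le_of_card_ge ?_ ?_
    · exact AddSubgroup.zmultiples_le_of_mem ⟨z0, ⟨g0, hg0⟩, rfl⟩
    · rw [hcP, Nat.card_zmultiples, addOrderOf_eq_prime hpz hz]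
  have hNpre : ∀ x : G, π x ∈ N.map π ↔ x ∈ N := by
    intro x
    constructor
    · rintro ⟨n, hn, hx⟩
      have h1 : x - n ∈ U := (hπ' x n).1 hx.symm
      have h2 : x = (x - n) + n := by abel
      rw [h2]
      exact N.add_mem (hUN h1) hn
    · intro hx
      exact ⟨x, hx, rfl⟩
  -- injectivity on D
  have hinj : Set.InjOn π D := by
    intro d hd d' hd' hdd
    exact h.inj hd hd' (hUN ((hπ' d d').1 hdd))
  -- representations
  have hrep : ∀ x : G ⧸ U, rep (D.image π) x = ∑ g ∈ univ.filter (fun g => π g = x), rep D g := by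
    intro x
    rw [sum_rep_filter D (fun g => π g = x)]
    unfold rep
    symm
    refine Finset.card_bij (fun q _ => (π q.1, π q.2)) ?_ ?_ ?_
    · intro q hq
      rw [Finset.mem_filter, Finset.mem_product] at hq ⊢
      exact ⟨⟨Finset.mem_image_of_mem _ hq.1.1, Finset.mem_image_of_mem _ hq.1.2⟩, by
        show π q.1 - π q.2 = x
        rw [← map_sub]; exact hq.2⟩
    · intro q hq q' hq' hqq
      rw [Finset.mem_filter, Finset.mem_product] at hq hq'
      rw [Prod.mk.injEq] at hqq
      exact Prod.ext (hinj hq.1.1 hq'.1.1 hqq.1) (hinj hq.1.2 hq'.1.2 hqq.2)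
    · intro r hr
      rw [Finset.mem_filter, Finset.mem_product, Finset.mem_image, Finset.mem_image] at hr
      obtain ⟨⟨⟨d, hd, hd1⟩, ⟨d', hd', hd1'⟩⟩, hr2⟩ := hr
      refine ⟨(d, d'), ?_, by rw [hd1, hd1']⟩
      rw [Finset.mem_filter, Finset.mem_product]
      refine ⟨⟨hd, hd'⟩, ?_⟩
      show π (d - d') = x
      rw [map_sub, hd1, hd1', hr2]
  have hfib : ∀ x : G ⧸ U, (univ.filter (fun g => π g = x)).card = p := by
    intro x
    obtain ⟨g1, hg1⟩ := hπs x
    have hFU : Fintype U := Fintype.ofFinite _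
    rw [← hU, Nat.card_eq_fintype_card, ← Finset.card_univ]
    symm
    refine Finset.card_bij (fun u _ => g1 + (u : G)) ?_ ?_ ?_
    · intro u _
      rw [Finset.mem_filter]
      refine ⟨Finset.mem_univ _, ?_⟩
      rw [map_add, (hπ _).2 u.2, add_zero, hg1]
    · intro u _ u' _ huu
      exact Subtype.ext (add_left_cancel huu)
    · intro g hg
      rw [Finset.mem_filter] at hg
      refine ⟨⟨g - g1, (hπ' g g1).1 (by rw [hg.2, hg1])⟩, Finset.mem_univ _, ?_⟩
      show g1 + (g - g1) = g
      abel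
  refine ⟨G ⧸ U, inferInstance, hF, inferInstance, N.map π, π z0, D.image π, ?_⟩
  refine
    { p2 := h.p2
      cardG := by rw [← Nat.card_eq_fintype_card]; exact hcQ
      cardN := hcN
      expN := ?_
      z0 := hz
      pz := hpz
      mz := ?_
      gz := ⟨π g0, by rw [← map_nsmul, hg0']⟩
      cardD := by rw [Finset.card_image_of_injOn hinj, h.cardD]
      rep1 := ?_
      rep0 := ?_ }
  · rintro x ⟨n, hn, rfl⟩
    rw [← map_nsmul]
    exact (hπ _).2 (hpU n hn)
  · intro x
    obtain ⟨g, rfl⟩ := hπs x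
    have h1 : p • π g ∈ AddSubgroup.zmultiples (π z0) := by
      rw [hzm, ← map_nsmul]
      exact ⟨p • g, ⟨g, rfl⟩, rfl⟩
    have h2 : IsOfFinAddOrder (π z0) := isOfFinAddOrder_of_finite _
    rw [← h2.mem_multiples_iff_mem_zmultiples] at h1
    obtain ⟨k, hk⟩ := h1
    exact ⟨k, hk.symm⟩
  · intro x hx
    have h1 := hrep x
    have h2 : ∑ g ∈ univ.filter (fun g => π g = x), rep D g = p := by
      rw [Finset.sum_congr rfl (g := fun _ => 1)]
      · rw [Finset.sum_const, hfib, smul_eq_mul, mul_one]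
      · intro g hg
        rw [Finset.mem_filter] at hg
        refine h.rep1 g fun hgN => hx ?_
        rw [← hg.2]
        exact (hNpre g).2 hgN
    rw [h2] at h1
    exact h1
  · intro x hx hx0
    have h1 := hrep x
    have h2 : ∑ g ∈ univ.filter (fun g => π g = x), rep D g = 0 := by
      refine Finset.sum_eq_zero ?_
      intro g hg
      rw [Finset.mem_filter] at hg
      refine h.rep0 g ?_ ?_
      · rw [← hNpre g, hg.2]; exact hx
      · rintro rfl
        rw [map_zero] at hg
        exact hx0 hg.2.symm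
    rw [h2] at h1
    exact h1

end Pool.Agent.H45.R3
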