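import Pool.Agent.H45.R3.Rdsb

/-!
# SIZ and GRA: the parts are graphs
-/

set_option autoImplicit false
set_option linter.unusedSectionVars false

open Finset

namespace Pool.Agent.H45.R3

open Pool.Agent.H56.RDS

section
variable {p : ℕ} [Fact p.Prime] {G : Type} [AddCommGroup G] [Fintype G] [DecidableEq G]
  {N : AddSubgroup G} {z : G} {D : Finset G}

/-- different elements of `D` are different modulo `N` -/
lemma Rds5.inj (h : Rds5 p G N z D) {d d' : G} (hd : d ∈ D) (hd' : d' ∈ D) (hN : d - d' ∈ N) : d = d' := by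
  by_contra hne
  have h1 := h.rep0 (d - d') hN (sub_ne_zero.2 hne)
  unfold rep at h1
  rw [Finset.card_eq_zero] at h1
  have h2 : (d, d') ∈ (D ×ˢ D).filter (fun x => x.1 - x.2 = d - d') := by
    rw [Finset.mem_filter, Finset.mem_product]
    exact ⟨⟨hd, hd'⟩, rfl⟩
  rw [h1] at h2
  exact absurd h2 (Finset.notMem_empty _)

lemma Rds5.bij (h : Rds5 p G N z D) : Function.Bijective (fun q : D × N => ((q.1 : G) + (q.2 : G))) := by
  classical
  have hinj : Function.Injective (fun q : D × N => ((q.1 : G) + (q.2 : G))) := by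
    rintro ⟨⟨d, hd⟩, ⟨n, hn⟩⟩ ⟨⟨d', hd'⟩, ⟨n', hn'⟩⟩ hq
    have h1 : d + n = d' + n' := hq
    have h2 : d - d' = n' - n := by
      have : d = d' + n' - n := by rw [← h1]; abel
      rw [this]; abel
    have h3 : d = d' := h.inj hd hd' (by rw [h2]; exact N.sub_mem hn' hn)
    subst h3
    have h4 : n = n' := add_left_cancel h1
    subst h4
    rfl
  have hf : Fintype N := Fintype.ofFinite N
  rw [Fintype.bijective_iff_injective_and_card]
  refine ⟨hinj, ?_⟩
  rw [Fintype.card_prod, Fintype.card_coe, h.cardD, ← Nat.card_eq_fintype_card (α := N), h.cardN, h.cardG]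
  ring

lemma Rds5.card_fib (h : Rds5 p G N z D) (k : ℕ) :
    ((univ : Finset G).filter fun g => p • g = k • z).card = p ^ 4 := by
  classical
  obtain ⟨g0, hg0⟩ := h.gz
  have hf : Fintype (Om p G) := Fintype.ofFinite _
  rw [← h.card_om, Nat.card_eq_fintype_card, ← Finset.card_univ]
  symm
  refine Finset.card_bij (fun v _ => (v : G) + k • g0) ?_ ?_ ?_
  · intro v _
    rw [Finset.mem_filter]
    refine ⟨Finset.mem_univ _, ?_⟩
    have h1 : p • (v : G) = 0 := v.2
    rw [nsmul_add, h1, zero_add, smul_comm, hg0]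
  · intro v _ v' _ hv
    exact Subtype.ext (add_right_cancel hv)
  · intro g hg
    have h1 : p • g = k • z := (Finset.mem_filter.1 hg).2
    refine ⟨⟨g - k • g0, ?_⟩, Finset.mem_univ _, by simp⟩
    show p • (g - k • g0) = 0
    rw [nsmul_sub, h1, smul_comm p k g0, hg0, sub_self]

end

theorem siz : SIZ := by
  intro p _ G _ _ _ N z D h k
  classical
  have hp : p.Prime := Fact.out
  have hf : Fintype N := Fintype.ofFinite N
  have h1 : ((univ : Finset G).filter fun g => p • g = k • z).card =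
      (part D p (k • z) ×ˢ (univ : Finset N)).card := by
    symm
    refine Finset.card_bij (fun q _ => q.1 + (q.2 : G)) ?_ ?_ ?_
    · intro q hq
      rw [Finset.mem_product] at hq
      rw [Finset.mem_filter]
      refine ⟨Finset.mem_univ _, ?_⟩
      have h2 : p • q.1 = k • z := (Finset.mem_filter.1 hq.1).2
      rw [nsmul_add, h2, h.expN _ q.2.2, add_zero]
    · intro q hq q' hq' hqq
      rw [Finset.mem_product] at hq hq'
      have h2 : q.1 ∈ D := part_subset D p _ hq.1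
      have h3 : q'.1 ∈ D := part_subset D p _ hq'.1
      have h4 := h.bij.1 (a₁ := (⟨q.1, h2⟩, q.2)) (a₂ := (⟨q'.1, h3⟩, q'.2)) hqq
      rw [Prod.mk.injEq] at h4
      exact Prod.ext (congrArg Subtype.val h4.1) h4.2
    · intro g hg
      have h2 : p • g = k • z := (Finset.mem_filter.1 hg).2
      obtain ⟨q, hq⟩ := h.bij.2 g
      have hq' : (q.1 : G) + (q.2 : G) = g := hq
      refine ⟨(q.1, q.2), ?_, hq'⟩
      rw [Finset.mem_product]
      refine ⟨?_, Finset.mem_univ _⟩
      show (q.1 : G) ∈ D.filter _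
      rw [Finset.mem_filter]
      refine ⟨q.1.2, ?_⟩
      rw [← hq', nsmul_add, h.expN _ q.2.2, add_zero] at h2
      exact h2
  rw [h.card_fib, Finset.card_product, Finset.card_univ, ← Nat.card_eq_fintype_card (α := N), h.cardN] at h1
  have h2 : p ^ 2 * (part D p (k • z)).card = p ^ 2 * p ^ 2 := by rw [mul_comm, ← h1]; ring
  exact Nat.eq_of_mul_eq_mul_left (pow_pos hp.pos 2) h2

theorem gra (hS : SIZ) : GRA := by
  intro p _ G _ _ _ N z D h Φ hΦ k
  classical
  have hp : p.Prime := Fact.out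
  have hcard := hS p G N z D h k
  have hne : (part D p (k • z)).Nonempty := by
    rw [← Finset.card_pos, hcard]
    exact pow_pos hp.pos 2
  obtain ⟨d, hd⟩ := hne
  have hpd : p • d = k • z := (Finset.mem_filter.1 hd).2
  have hOm : ∀ x ∈ part D p (k • z), x - d ∈ Om p G := by
    intro x hx
    have h1 : p • x = k • z := (Finset.mem_filter.1 hx).2
    show p • (x - d) = 0
    rw [nsmul_sub, h1, hpd, sub_self]
  -- the coordinate map
  let ψ : {x // x ∈ part D p (k • z)} → ZMod p × ZMod p := fun x => (Φ ⟨x.1 - d, hOm x.1 x.2⟩).1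
  have hinj : Function.Injective ψ := by
    intro x x' hx
    have h1 : (Φ (⟨x.1 - d, hOm x.1 x.2⟩ - ⟨x'.1 - d, hOm x'.1 x'.2⟩)).1 = (0, 0) := by
      rw [map_sub]
      show (Φ _).1 - (Φ _).1 = 0
      exact sub_eq_zero.2 hx
    have h2 := (hΦ _).2 h1
    have h3 : x.1 - x'.1 ∈ N := by
      have h4 : ((⟨x.1 - d, hOm x.1 x.2⟩ - ⟨x'.1 - d, hOm x'.1 x'.2⟩ : Om p G) : G) = x.1 - x'.1 := by
        rw [AddSubgroup.coe_sub]
        show x.1 - d - (x'.1 - d) = x.1 - x'.1
        abel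
      rw [h4] at h2
      exact h2
    exact Subtype.ext (h.inj (part_subset D p _ x.2) (part_subset D p _ x'.2) h3)
  have hbij : Function.Bijective ψ := by
    rw [Fintype.bijective_iff_injective_and_card]
    refine ⟨hinj, ?_⟩
    rw [Fintype.card_coe, hcard, Fintype.card_prod, ZMod.card, pow_two]
  let E := Equiv.ofBijective ψ hbij
  refine ⟨d, fun y x => (Φ ⟨(E.symm (y, x)).1 - d, hOm _ (E.symm (y, x)).2⟩).2.1,
    fun y x => (Φ ⟨(E.symm (y, x)).1 - d, hOm _ (E.symm (y, x)).2⟩).2.2, ?_⟩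
  have hval : ∀ q : ZMod p × ZMod p, d + ((Φ.symm ((q.1, q.2),
      ((Φ ⟨(E.symm (q.1, q.2)).1 - d, hOm _ (E.symm (q.1, q.2)).2⟩).2.1,
      (Φ ⟨(E.symm (q.1, q.2)).1 - d, hOm _ (E.symm (q.1, q.2)).2⟩).2.2)) : Om p G) : G) =
      ((E.symm q).1 : G) := by
    intro q
    have h1 : ψ (E.symm q) = q := E.apply_symm_apply q
    have h2 : (q.1, q.2) = (Φ ⟨(E.symm q).1 - d, hOm _ (E.symm q).2⟩).1 := by
      rw [Prod.mk.eta]; exact h1.symm
    have h3 : ((q.1, q.2), ((Φ ⟨(E.symm (q.1, q.2)).1 - d, hOm _ (E.symm (q.1, q.2)).2⟩).2.1,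
      (Φ ⟨(E.symm (q.1, q.2)).1 - d, hOm _ (E.symm (q.1, q.2)).2⟩).2.2)) =
      Φ ⟨(E.symm q).1 - d, hOm _ (E.symm q).2⟩ := by
      refine Prod.ext h2 rfl
    rw [h3, AddEquiv.symm_apply_apply]
    show d + ((E.symm q).1 - d) = (E.symm q).1
    abel
  ext x
  constructor
  · intro hx
    rw [Finset.mem_image]
    refine ⟨ψ ⟨x, hx⟩, Finset.mem_univ _, ?_⟩
    rw [hval]
    have h1 : E.symm (ψ ⟨x, hx⟩) = ⟨x, hx⟩ := E.symm_apply_apply ⟨x, hx⟩
    rw [h1]
  · intro hx
    rw [Finset.mem_image] at hx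
    obtain ⟨q, _, hq⟩ := hx
    rw [hval] at hq
    rw [← hq]
    exact (E.symm q).2

end Pool.Agent.H45.R3
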