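import Pool.Agent.H45.R3.Stmts

/-!
# WAL: Walsh coefficients of the graphs
-/

set_option autoImplicit false
set_option linter.unusedSectionVars false

open Finset

namespace Pool.Agent.H45.R3

open Pool.Agent.H56.RDS

lemma e_add {p : ℕ} [Fact p.Prime] (a b : ZMod p) : e (a + b) = e a * e b := AddChar.map_add_eq_mul _ _ _

lemma e_zero {p : ℕ} [Fact p.Prime] : e (0 : ZMod p) = 1 := AddChar.map_zero_eq_one _

lemma e_eq_one {p : ℕ} [Fact p.Prime] {a : ZMod p} (h : e a = 1) : a = 0 := by
  rw [← e_zero (p := p)] at h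
  exact ZMod.injective_stdAddChar h

theorem wal (hC : CARR) (hE : EXT) : WAL := by
  intro p _ G _ _ _ N z D h Φ hΦ a d f g hpart t c l l' hl hz
  classical
  let L : (ZMod p × ZMod p) × (ZMod p × ZMod p) → ZMod p := fun v => t * v.1.1 + c * v.1.2 + l * v.2.1 + l' * v.2.2
  let ψ : AddChar (Om p G) ℂ :=
    { toFun := fun v => e (L (Φ v))
      map_zero_eq_one' := by
        show e (L (Φ 0)) = 1
        rw [map_zero, ← e_zero (p := p)]
        congr 1
        simp [L]
      map_add_eq_mul' := by
        intro v v'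
        show e (L (Φ (v + v'))) = e (L (Φ v)) * e (L (Φ v'))
        rw [map_add, ← e_add]
        congr 1
        simp only [L, Prod.fst_add, Prod.snd_add]
        ring }
  obtain ⟨χ, hχ⟩ := hE G (Om p G) ψ
  have hχΦ : ∀ v : Om p G, χ (v : G) = e (L (Φ v)) := fun v => hχ v
  have hN : ∃ x ∈ N, χ x ≠ 1 := by
    rcases hl with h0 | h0
    · refine ⟨((Φ.symm ((0, 0), (1, 0)) : Om p G) : G), ?_, ?_⟩
      · rw [hΦ, AddEquiv.apply_symm_apply]
      · rw [hχΦ, AddEquiv.apply_symm_apply]
        intro h1
        have h2 := e_eq_one h1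
        simp only [L] at h2
        exact h0 (by linear_combination h2)
    · refine ⟨((Φ.symm ((0, 0), (0, 1)) : Om p G) : G), ?_, ?_⟩
      · rw [hΦ, AddEquiv.apply_symm_apply]
      · rw [hχΦ, AddEquiv.apply_symm_apply]
        intro h1
        have h2 := e_eq_one h1
        simp only [L] at h2
        exact h0 (by linear_combination h2)
  have hzO : z ∈ Om p G := h.pz
  have hχz : χ z ≠ 1 := by
    intro h1
    have h2 : χ ((⟨z, hzO⟩ : Om p G) : G) = 1 := h1
    rw [hχΦ] at h2
    exact hz hzO (e_eq_one h2)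
  have hcs : cs χ (part D p a) = χ d * W (fun y x => l * f y x + l' * g y x) t c := by
    unfold cs W
    rw [hpart, Finset.sum_image]
    · rw [← Finset.univ_product_univ, Finset.sum_product, Finset.mul_sum]
      refine Finset.sum_congr rfl fun y _ => ?_
      rw [Finset.mul_sum]
      refine Finset.sum_congr rfl fun x _ => ?_
      rw [AddChar.map_add_eq_mul, hχΦ, AddEquiv.apply_symm_apply]
      congr 2
      simp only [L]
      ring
    · intro q _ q' _ hq
      have h4 := add_left_cancel hq
      have h5 := Φ.symm.injective (Subtype.ext h4)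
      simp only [Prod.mk.injEq] at h5
      exact Prod.ext h5.1.1 h5.1.2
  have hd : ‖χ d‖ = 1 := AddChar.norm_apply χ d
  have hd0 : χ d ≠ 0 := by
    intro h0
    rw [h0, norm_zero] at hd
    exact zero_ne_one hd
  rcases hC p G N z D h χ hN hχz a with h1 | h1
  · left
    rw [hcs] at h1
    exact (mul_eq_zero.1 h1).resolve_left hd0
  · right
    rw [hcs, norm_mul, hd, one_mul] at h1
    exact h1

end Pool.Agent.H45.R3
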